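import Mathlib
import Pool.Agent.MP_5c8b6d_co.MA

/-! Colourings of multigraphs by involutions: balancing of chosen missing colours and the
extension of a colouring to one more vertex. -/

namespace Pool.Agent.MP_5c8b6d_co.JE

open Finset

set_option linter.unusedSectionVars false

variable {V ι : Type} [Fintype V] [DecidableEq V] [Fintype ι] [DecidableEq ι]

/-- every colour is an involution -/
def Iv (M : ι → V → V) : Prop := ∀ i v, M i (M i v) = v

/-- the number of colours that send `u` to `v` -/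
def cn (M : ι → V → V) (u v : V) : ℕ := (univ.filter (fun i => M i u = v)).card

/-- the colours are permuted inside `I`, vertex by vertex -/
def Rl (I : Finset ι) (M : ι → V → V) (Y : ι → Finset V) (M' : ι → V → V) (Y' : ι → Finset V) :
    Prop :=
  ∃ π : V → Equiv.Perm ι, (∀ v i, i ∉ I → π v i = i) ∧
    ∀ i v, M' i v = M (π v i) v ∧ (v ∈ Y' i ↔ v ∈ Y (π v i))

/-- exchanging two chosen sets on `K` -/
def swY (Y : ι → Finset V) (a b : ι) (K : Finset V) (c : ι) : Finset V :=
  (Y c \ K) ∪ (Y (Equiv.swap a b c) ∩ K)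

variable {I : Finset ι} {M M' M'' : ι → V → V} {Y Y' Y'' : ι → Finset V}

theorem Rl.refl (I : Finset ι) (M : ι → V → V) (Y : ι → Finset V) : Rl I M Y M Y :=
  ⟨fun _ => 1, fun _ _ _ => rfl, fun _ _ => ⟨rfl, Iff.rfl⟩⟩

theorem Rl.trans (h : Rl I M Y M' Y') (k : Rl I M' Y' M'' Y'') : Rl I M Y M'' Y'' := by
  obtain ⟨π, a, b⟩ := h
  obtain ⟨σ, c, d⟩ := k
  refine ⟨fun v => π v * σ v, fun v i hi => ?_, fun i v => ?_⟩
  · simp [c v i hi, a v i hi]
  · exact ⟨(d i v).1.trans (b _ v).1, (d i v).2.trans (b _ v).2⟩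

theorem Rl.cn_eq (h : Rl I M Y M' Y') (u v : V) : cn M' u v = cn M u v := by
  obtain ⟨π, -, b⟩ := h
  refine card_bij (fun i _ => π u i) (fun i hi => ?_) (fun i _ j _ k => (π u).injective k)
    (fun j hj => ⟨(π u).symm j, ?_, by simp⟩)
  · simpa [(b i u).1] using hi
  · simpa [(b _ u).1] using hj

theorem Rl.ld_eq (h : Rl I M Y M' Y') (v : V) : ld Y' v = ld Y v := by
  obtain ⟨π, -, b⟩ := h
  refine card_bij (fun i _ => π v i) (fun i hi => ?_) (fun i _ j _ k => (π v).injective k)
    (fun j hj => ⟨(π v).symm j, ?_, by simp⟩)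
  · simpa [(b i v).2] using hi
  · simpa [(b _ v).2] using hj

theorem perm_mem {π : Equiv.Perm ι} (h : ∀ i, i ∉ I → π i = i) {i : ι} (hi : i ∈ I) : π i ∈ I := by
  by_contra k
  exact k ((π.injective (h _ k)).symm ▸ hi)

theorem mem_swY {a b c : ι} {K : Finset V} {v : V} :
    v ∈ swY Y a b K c ↔ if v ∈ K then v ∈ Y (Equiv.swap a b c) else v ∈ Y c := by
  by_cases h : v ∈ K <;> simp [swY, h]

theorem swY_other {a b c : ι} (K : Finset V) (h : c ≠ a) (k : c ≠ b) : swY Y a b K c = Y c := by
  ext v; rw [mem_swY, Equiv.swap_apply_of_ne_of_ne h k]; simp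

theorem card_swY (a b c : ι) (K : Finset V) :
    (swY Y a b K c).card + (Y c ∩ K).card = (Y c).card + (Y (Equiv.swap a b c) ∩ K).card := by
  have h1 : (swY Y a b K c).card = (Y c \ K).card + (Y (Equiv.swap a b c) ∩ K).card :=
    card_union_of_disjoint (disjoint_left.2 fun v x y => (mem_sdiff.1 x).2 (mem_inter.1 y).2)
  have h2 := card_sdiff_add_card_inter (Y c) K
  omega

theorem rl_swap {a b : ι} (ha : a ∈ I) (hb : b ∈ I) (K : Finset V) :
    Rl I M Y (swapK M a b K) (swY Y a b K) := by
  refine ⟨fun v => if v ∈ K then Equiv.swap a b else 1, fun v i hi => ?_, fun i v => ?_⟩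
  · by_cases h : v ∈ K
    · simp only [if_pos h]
      exact Equiv.swap_apply_of_ne_of_ne (fun k => hi (k ▸ ha)) (fun k => hi (k ▸ hb))
    · simp [h]
  · by_cases h : v ∈ K
    · simp [swapK_mem h, mem_swY, h]
    · simp [swapK_not h, mem_swY, h]

theorem Iv.swap (h : Iv M) {a b : ι} {K : Finset V} (hK : ∀ v ∈ K, M a v ∈ K ∧ M b v ∈ K) :
    Iv (swapK M a b K) := by
  have hc : ∀ i, i = a ∨ i = b → ∀ v, M i v ∈ K ↔ v ∈ K := by
    rintro i (rfl | rfl) v
    · exact ⟨fun x => by simpa [h _ v] using (hK _ x).1, fun x => (hK v x).1⟩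
    · exact ⟨fun x => by simpa [h _ v] using (hK _ x).2, fun x => (hK v x).2⟩
  intro i v
  by_cases c : i = a ∨ i = b
  · have c' : Equiv.swap a b i = a ∨ Equiv.swap a b i = b := by
      rcases c with rfl | rfl <;> simp
    by_cases d : v ∈ K
    · rw [swapK_mem d, swapK_mem ((hc _ c' v).2 d), h]
    · rw [swapK_not d, swapK_not (mt (hc _ c v).1 d), h]
  · rw [swapK_other K (not_or.1 c).1 (not_or.1 c).2, h]

theorem Rl.fix (h : Rl I M Y M' Y') (hY : ∀ i, ∀ v ∈ Y i, M i v = v) :
    ∀ i, ∀ v ∈ Y' i, M' i v = v := by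
  obtain ⟨π, -, b⟩ := h
  exact fun i v hv => (b i v).1.trans (hY _ v ((b i v).2.1 hv))

/-- a closed set on which the first chosen set has one or two points and the second none -/
theorem exists_chain (h : Iv M) (hY : ∀ i, ∀ v ∈ Y i, M i v = v) {i j : ι}
    (hij : (Y j).card < (Y i).card) : ∃ K : Finset V, (∀ v ∈ K, M i v ∈ K ∧ M j v ∈ K) ∧
      1 ≤ (Y i ∩ K).card ∧ (Y i ∩ K).card ≤ 2 ∧ (Y j ∩ K).card = 0 := by
  by_cases c : ∃ u ∈ Y i \ Y j, M j u = u
  · obtain ⟨u, hu, k⟩ := c
    obtain ⟨u1, u2⟩ := mem_sdiff.1 hu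
    refine ⟨{u}, fun v hv => ?_, ?_, ?_, ?_⟩
    · rw [mem_singleton.1 hv, hY i u u1, k]; simp
    · rw [inter_singleton_of_mem u1]; simp
    · rw [inter_singleton_of_mem u1]; simp
    · rw [inter_singleton_of_notMem u2]; simp
  push Not at c
  obtain ⟨τ, hτ⟩ := kempe V (M i) (M j) (h i) (h j)
  have e : ∀ u ∈ Y i \ Y j, (M i u = u ↔ M j u ≠ u) := fun u hu =>
    ⟨fun _ => c u hu, fun _ => hY i u (mem_sdiff.1 hu).1⟩
  have : ∃ u ∈ Y i \ Y j, τ u ∉ Y j \ Y i := by
    by_contra k
    push Not at k
    have h1 : (Y i \ Y j).card ≤ (Y j \ Y i).card :=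
      card_le_card_of_injOn τ (fun u hu => k u hu) fun a ha b hb x => by
        rw [← (hτ a (e a ha)).2.2.1, x, (hτ b (e b hb)).2.2.1]
    have h2 := card_sdiff_add_card_inter (Y i) (Y j)
    have h3 := card_sdiff_add_card_inter (Y j) (Y i)
    rw [inter_comm] at h3
    omega
  obtain ⟨u, hu, k⟩ := this
  obtain ⟨t1, -, -, K, k1, -, k3, k4⟩ := hτ u (e u hu)
  obtain ⟨u1, u2⟩ := mem_sdiff.1 hu
  refine ⟨K, k3, card_pos.2 ⟨u, mem_inter.2 ⟨u1, k1⟩⟩, ?_, ?_⟩
  · refine le_trans (card_le_card (t := {u, τ u}) fun v hv => ?_) card_le_two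
    have := k4 v (mem_inter.1 hv).2 (Or.inl (hY i v (mem_inter.1 hv).1))
    simpa using this
  · rw [card_eq_zero, eq_empty_iff_forall_notMem]
    intro v hv
    obtain ⟨v1, v2⟩ := mem_inter.1 hv
    rcases k4 v v2 (Or.inr (hY j v v1)) with r | r
    · exact u2 (r ▸ v1)
    · rw [r] at v1
      have v3 : τ u ∈ Y i := by
        by_contra x
        exact k (mem_sdiff.2 ⟨v1, x⟩)
      exact t1.1 (hY i _ v3) (hY j _ v1)

/-- chosen sets of missing vertices can be balanced -/
theorem eqs (I : Finset ι) (h : Iv M) (hY : ∀ i, ∀ v ∈ Y i, M i v = v) :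
    ∃ (M' : ι → V → V) (Y' : ι → Finset V), Iv M' ∧ Rl I M Y M' Y' ∧
      ∀ i ∈ I, ∀ j ∈ I, (Y' i).card ≤ (Y' j).card + 2 := by
  classical
  obtain ⟨⟨N, X⟩, a, b⟩ := exists_min_image
    (univ.filter (fun p : (ι → V → V) × (ι → Finset V) => Iv p.1 ∧ Rl I M Y p.1 p.2))
    (fun p => ∑ i, (p.2 i).card ^ 2) ⟨(M, Y), mem_filter.2 ⟨mem_univ _, h, Rl.refl _ _ _⟩⟩
  obtain ⟨a1, a2⟩ : Iv N ∧ Rl I M Y N X := (mem_filter.1 a).2
  refine ⟨N, X, a1, a2, fun i hi j hj => ?_⟩
  by_contra hn
  have hij : i ≠ j := by rintro rfl; omega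
  obtain ⟨K, k1, k2, k3, k4⟩ := exists_chain a1 (a2.fix hY) (i := i) (j := j) (by omega)
  have h1 := b (swapK N i j K, swY X i j K)
    (mem_filter.2 ⟨mem_univ _, a1.swap k1, a2.trans (rl_swap hi hj K)⟩)
  simp only at h1
  have e1 := card_swY (Y := X) i j i K
  have e2 := card_swY (Y := X) i j j K
  rw [Equiv.swap_apply_left] at e1
  rw [Equiv.swap_apply_right] at e2
  have s : ∀ f : ι → ℕ, ∑ c, f c = f i + f j + ∑ c ∈ (univ.erase i).erase j, f c := fun f => by
    rw [← add_sum_erase _ f (mem_univ i),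
      ← add_sum_erase _ f (mem_erase.2 ⟨hij.symm, mem_univ j⟩), add_assoc]
  rw [s, s (fun c => (swY X i j K c).card ^ 2)] at h1
  have e3 : ∑ c ∈ (univ.erase i).erase j, (swY X i j K c).card ^ 2 =
      ∑ c ∈ (univ.erase i).erase j, (X c).card ^ 2 := sum_congr rfl fun c hc => by
    rw [swY_other K (mem_erase.1 (mem_erase.1 hc).2).1 (mem_erase.1 hc).1]
  rw [e3] at h1
  obtain ⟨p, hp⟩ : ∃ p, (X i).card = (X j).card + 3 + p := ⟨(X i).card - (X j).card - 3, by omega⟩
  rcases (by omega : (X i ∩ K).card = 1 ∨ (X i ∩ K).card = 2) with r | r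
  · have f1 : (swY X i j K i).card = (X j).card + 2 + p := by omega
    have f2 : (swY X i j K j).card = (X j).card + 1 := by omega
    rw [f1, f2, hp] at h1; nlinarith
  · have f1 : (swY X i j K i).card = (X j).card + 1 + p := by omega
    have f2 : (swY X i j K j).card = (X j).card + 2 := by omega
    rw [f1, f2, hp] at h1; nlinarith

theorem Iv.cn_symm (h : Iv M) (u v : V) : cn M u v = cn M v u := by
  unfold cn; congr 1; ext i
  simp only [mem_filter, mem_univ, true_and]
  exact ⟨fun k => by rw [← k, h], fun k => by rw [← k, h]⟩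

theorem sum_cn (M : ι → V → V) (u : V) : ∑ v, cn M u v = Fintype.card ι := by
  unfold cn
  rw [← card_univ]
  exact (card_eq_sum_card_fiberwise (f := fun i => M i u) fun _ _ => mem_univ _).symm

theorem cn_glue {N : ι → V → V} (hd : ∀ i, Disjoint (mv (M i)) (mv (N i))) {u v : V} (h : u ≠ v) :
    cn (fun i => glue (M i) (N i)) u v = cn M u v + cn N u v := by
  unfold cn
  rw [← card_union_of_disjoint]
  · congr 1; ext i
    simp only [mem_filter, mem_univ, true_and, mem_union]
    by_cases a : M i u = u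
    · rw [glue_right a, a]; simp [h]
    · rw [glue_left a]
      refine ⟨Or.inl, fun k => k.elim id fun b => ?_⟩
      exact absurd (mem_mv.2 (show N i u ≠ u from b ▸ h.symm)) (disjoint_left.1 (hd i) (mem_mv.2 a))
  · refine disjoint_left.2 fun i a b => ?_
    have a1 := (mem_filter.1 a).2
    have b1 := (mem_filter.1 b).2
    exact disjoint_left.1 (hd i) (mem_mv.2 (show M i u ≠ u from a1 ▸ h.symm))
      (mem_mv.2 (show N i u ≠ u from b1 ▸ h.symm))

theorem Iv.glue {N : ι → V → V} (h : Iv M) (k : Iv N) (hd : ∀ i, Disjoint (mv (M i)) (mv (N i))) :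
    Iv (fun i => glue (M i) (N i)) := fun i => glue_inv (h i) (k i) (hd i)

theorem sum_card_ld (Y : ι → Finset V) : ∑ i, (Y i).card = ∑ v, ld Y v := by
  simpa using sum_card_eq_ld Y univ

/-- the extension to a vertex `w` with simple edges -/
theorem ext_aux (w : V) : ∀ (n : ℕ) (I : Finset ι) (N : Finset V) (M : ι → V → V) (y0 : V),
    N.card = n → Iv M → (∀ i ∈ I, M i w = w) → w ∉ N → N.card ≤ I.card →
    (∀ y ∈ N, 1 ≤ (I.filter (fun i => M i y = y)).card) →
    (∀ y ∈ N, y ≠ y0 → 2 ≤ (I.filter (fun i => M i y = y)).card) →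
    ∃ M' : ι → V → V, Iv M' ∧ ∀ u v, u ≠ v →
      cn M' u v = cn M u v + if (u = w ∧ v ∈ N) ∨ (v = w ∧ u ∈ N) then 1 else 0 := by
  intro n
  induction n with
  | zero =>
    intro I N M _ hN h _ _ _ _ _
    rw [card_eq_zero] at hN
    exact ⟨M, h, fun u v _ => by simp [hN]⟩
  | succ n ih =>
    intro I N M y0 hN h hw hwN hNI h1 h2
    obtain ⟨y1, y1N, hy1⟩ : ∃ y1 ∈ N, ∀ y ∈ N, y ≠ y1 →
        2 ≤ (I.filter (fun i => M i y = y)).card := by
      by_cases c : y0 ∈ N
      · exact ⟨y0, c, h2⟩
      · obtain ⟨y, hy⟩ := card_pos.1 (show 0 < N.card by omega)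
        exact ⟨y, hy, fun x hx _ => h2 x hx fun k => c (k ▸ hx)⟩
    have hT : ∀ y, ∃ T ⊆ I.filter (fun i => M i y = y),
        T.card = if y ∈ N then (if y = y1 then 1 else 2) else 0 := fun y => by
      refine exists_subset_card_eq ?_
      split_ifs with a b
      · exact h1 y a
      · exact hy1 y a b
      · exact Nat.zero_le _
    choose T T1 T2 using hT
    have l0 : ∀ y, ld (fun i => univ.filter (fun y => i ∈ T y)) y = (T y).card := fun y => by
      simp [ld]
    obtain ⟨M1, Y, a1, a2, a3⟩ := eqs (Y := fun i => univ.filter (fun y => i ∈ T y)) I h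
      fun i v hv => (mem_filter.1 (T1 v (mem_filter.1 hv).2)).2
    have l1 : ∀ y, ld Y y = if y ∈ N then (if y = y1 then 1 else 2) else 0 := fun y => by
      rw [a2.ld_eq, l0, T2]
    have f1 := a2.fix fun i v hv => (mem_filter.1 (T1 v (mem_filter.1 hv).2)).2
    have c1 := a2.cn_eq
    obtain ⟨π, p1, p2⟩ := a2
    have y0' : ∀ i, i ∉ I → Y i = ∅ := fun i hi => eq_empty_iff_forall_notMem.2 fun v hv => by
      have := (p2 i v).2.1 hv
      rw [p1 v i hi] at this
      exact hi (mem_filter.1 (T1 v (mem_filter.1 this).2)).1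
    have w1 : ∀ i ∈ I, M1 i w = w := fun i hi => (p2 i w).1.trans (hw _ (perm_mem (p1 w) hi))
    have s1 : ∑ i ∈ I, (Y i).card + 1 = 2 * N.card := by
      rw [sum_subset (subset_univ I) fun i _ hi => by rw [y0' i hi, card_empty], sum_card_ld]
      simp only [l1]
      rw [← sum_filter, filter_mem_eq_inter, univ_inter, ← add_sum_erase _ _ y1N, if_pos rfl,
        sum_congr rfl fun y hy => if_neg (mem_erase.1 hy).1, sum_const, card_erase_of_mem y1N,
        smul_eq_mul]
      omega
    obtain ⟨c, cI, hc⟩ : ∃ c ∈ I, (Y c).card = 1 := by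
      by_contra k
      push Not at k
      obtain ⟨i, hi, b1⟩ : ∃ i ∈ I, (Y i).card < 2 := by
        by_contra x
        push Not at x
        have := sum_le_sum x
        rw [sum_const, smul_eq_mul] at this
        omega
      obtain ⟨j, hj, b2⟩ : ∃ j ∈ I, ¬ 2 ∣ (Y j).card := by
        by_contra x
        push Not at x
        have := dvd_sum x
        omega
      have := a3 j hj i hi
      have := k i hi
      have := k j hj
      omega
    obtain ⟨u, hu⟩ := card_eq_one.1 hc
    have uY : u ∈ Y c := by rw [hu]; exact mem_singleton_self u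
    have uN : u ∈ N := by
      by_contra x
      have b := l1 u
      rw [if_neg x, ld, card_eq_zero, eq_empty_iff_forall_notMem] at b
      exact b c (mem_filter.2 ⟨mem_univ _, uY⟩)
    have wu : w ≠ u := fun x => hwN (x ▸ uN)
    let P : ι → V → V := fun i => if i = c then Equiv.swap w u else id
    have P1 : Iv P := fun i v => by
      by_cases x : i = c <;> simp [P, x]
    have P2 : ∀ i, Disjoint (mv (M1 i)) (mv (P i)) := fun i => disjoint_left.2 fun v x y => by
      by_cases z : i = c
      · simp only [P, if_pos z] at y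
        rw [mv_swap wu] at y
        subst z
        rcases mem_insert.1 y with r | r
        · exact mem_mv.1 x (r ▸ w1 i cI)
        · exact mem_mv.1 x (mem_singleton.1 r ▸ f1 i u uY)
      · simp [P, z] at y
    have P3 : ∀ i, i ≠ c → ∀ v, glue (M1 i) (P i) v = M1 i v := fun i hi v => by
      by_cases x : M1 i v = v
      · rw [glue_right x, x]; simp [P, hi]
      · exact glue_left x
    have l2 : ∀ y ∈ N.erase u,
        ld Y y ≤ ((I.erase c).filter (fun i => glue (M1 i) (P i) y = y)).card := fun y hy => by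
      refine card_le_card fun i hi => ?_
      have b := (mem_filter.1 hi).2
      have ic : i ≠ c := by
        rintro rfl
        rw [hu] at b
        exact (mem_erase.1 hy).1 (mem_singleton.1 b)
      have iI : i ∈ I := by
        by_contra x
        rw [y0' i x] at b
        exact notMem_empty _ b
      exact mem_filter.2 ⟨mem_erase.2 ⟨ic, iI⟩, (P3 i ic y).trans (f1 i y b)⟩
    obtain ⟨M2, b1, b2⟩ := ih (I.erase c) (N.erase u) (fun i => glue (M1 i) (P i)) y1
      (by rw [card_erase_of_mem uN]; omega) (a1.glue P1 P2)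
      (fun i hi => (P3 i (mem_erase.1 hi).1 w).trans (w1 i (mem_erase.1 hi).2))
      (fun x => hwN (mem_erase.1 x).2)
      (by rw [card_erase_of_mem uN, card_erase_of_mem cI]; omega)
      (fun y hy => by
        have b := l2 y hy
        rw [l1, if_pos (mem_erase.1 hy).2] at b
        split_ifs at b <;> omega)
      (fun y hy x => by
        have b := l2 y hy
        rwa [l1, if_pos (mem_erase.1 hy).2, if_neg x] at b)
    refine ⟨M2, b1, fun a b hab => ?_⟩
    have q : cn P a b = if (a = w ∧ b = u) ∨ (b = w ∧ a = u) then 1 else 0 := by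
      unfold cn
      split_ifs with x
      · rw [card_eq_one]
        refine ⟨c, ?_⟩
        ext i
        by_cases z : i = c
        · rcases x with ⟨rfl, rfl⟩ | ⟨rfl, rfl⟩ <;> simp [P, z]
        · simp [P, z, hab]
      · rw [card_eq_zero, eq_empty_iff_forall_notMem]
        intro i hi
        have b3 := (mem_filter.1 hi).2
        by_cases z : i = c
        · simp only [P, if_pos z, Equiv.swap_apply_def] at b3
          split_ifs at b3 with r1 r2
          · exact x (Or.inl ⟨r1, b3.symm⟩)
          · exact x (Or.inr ⟨b3.symm, r2⟩)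
          · exact hab b3
        · simp [P, z, hab] at b3
    rw [b2 a b hab, cn_glue P2 hab, c1, q, add_assoc]
    congr 1
    by_cases r1 : a = w
    · have : b ≠ w := fun x => hab (r1.trans x.symm)
      by_cases r2 : b = u <;> simp [r1, r2, this, uN, wu.symm]
    · by_cases r2 : b = w
      · by_cases r3 : a = u <;> simp [r1, r2, r3, uN, wu.symm]
      · simp [r1, r2]

/-- `M` colours the multigraph with multiplicities `μ` -/
def Re (M : ι → V → V) (μ : V → V → ℕ) : Prop := Iv M ∧ ∀ u v, u ≠ v → cn M u v = μ u v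

/-- the degree in a multigraph -/
def dm (μ : V → V → ℕ) (u : V) : ℕ := ∑ v ∈ univ.erase u, μ u v

/-- the multigraph without the vertices of `L` -/
def off (μ : V → V → ℕ) (L : Finset V) (u v : V) : ℕ := if u ∈ L ∨ v ∈ L then 0 else μ u v

theorem Re.load {μ : V → V → ℕ} (h : Re M μ) (u : V) : cn M u u + dm μ u = Fintype.card ι := by
  rw [← sum_cn M u, ← add_sum_erase _ _ (mem_univ u), dm]
  congr 1
  exact sum_congr rfl fun v hv => (h.2 u v (mem_erase.1 hv).1.symm).symm

theorem fix_of_cn {u : V} (h : cn M u u = Fintype.card ι) (i : ι) : M i u = u := by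
  have : univ.filter (fun i => M i u = u) = univ := eq_univ_of_card _ h
  have k : i ∈ univ.filter (fun i => M i u = u) := by rw [this]; exact mem_univ i
  exact (mem_filter.1 k).2

theorem Re.fix {μ : V → V → ℕ} (h : Re M μ) {u : V} (k : ∀ v, v ≠ u → μ u v = 0) (i : ι) :
    M i u = u := by
  refine fix_of_cn ?_ i
  have := h.load u
  rw [dm, sum_eq_zero fun v hv => k v (mem_erase.1 hv).1] at this
  exact this

theorem dm_off_le (μ : V → V → ℕ) (L : Finset V) (u : V) : dm (off μ L) u ≤ dm μ u :=
  sum_le_sum fun v _ => by unfold off; split_ifs <;> omega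

/-- vertices with simple edges can be added when only `z` has full degree -/
theorem add_simple (z : V) (L : Finset V) : ∀ μ : V → V → ℕ, (∀ u v, μ u v = μ v u) → z ∉ L →
    (∀ w ∈ L, ∀ v, v ≠ w → μ w v ≤ 1) → (∀ v, v ≠ z → dm μ v < Fintype.card ι) →
    dm μ z ≤ Fintype.card ι → (∃ M : ι → V → V, Re M (off μ L)) → ∃ M : ι → V → V, Re M μ := by
  induction L using Finset.induction_on with
  | empty =>
    intro μ _ _ _ _ _ h
    have : off μ ∅ = μ := by funext u v; simp [off]
    rwa [this] at h
  | insert w L hw ih =>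
    intro μ hs hz h1 h2 h3 h
    have zw : z ≠ w := fun x => hz (x ▸ mem_insert_self _ _)
    have e : off (off μ {w}) L = off μ (insert w L) := by
      funext u v
      simp only [off, mem_singleton, mem_insert]
      split_ifs <;> tauto
    obtain ⟨M, hM⟩ := ih (off μ {w}) (fun u v => by simp only [off, or_comm, hs u v])
      (fun x => hz (mem_insert_of_mem x))
      (fun x hx v hv => by
        have := h1 x (mem_insert_of_mem hx) v hv
        unfold off; split_ifs <;> omega)
      (fun v hv => (dm_off_le μ _ v).trans_lt (h2 v hv)) ((dm_off_le μ _ z).trans h3) (e ▸ h)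
    have d : ∀ y, y ≠ w → dm (off μ {w}) y + μ w y = dm μ y := fun y hy => by
      have m : w ∈ univ.erase y := mem_erase.2 ⟨hy.symm, mem_univ _⟩
      unfold dm
      rw [← add_sum_erase _ _ m, ← add_sum_erase _ (μ y) m, hs w y]
      have : ∑ v ∈ (univ.erase y).erase w, off μ {w} y v = ∑ v ∈ (univ.erase y).erase w, μ y v :=
        sum_congr rfl fun v hv => by simp [off, hy, (mem_erase.1 hv).1]
      rw [this]; simp [off]; omega
    obtain ⟨M', b1, b2⟩ := ext_aux w _ univ ((univ.erase w).filter (fun y => μ w y = 1)) M z rfl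
      hM.1 (fun i _ => hM.fix (fun v _ => by simp [off]) i) (by simp)
      (by
        have b : ((univ.erase w).filter (fun y => μ w y = 1)).card ≤ dm μ w := by
          rw [card_filter]
          exact sum_le_sum fun v _ => by split_ifs <;> omega
        have := h2 w zw.symm
        rw [card_univ]; omega)
      (fun y hy => by
        obtain ⟨y1, y2⟩ := mem_filter.1 hy
        have b := hM.load y
        have := d y (mem_erase.1 y1).1
        change 1 ≤ cn M y y
        by_cases x : y = z
        · subst x; omega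
        · have := h2 y x; omega)
      (fun y hy x => by
        obtain ⟨y1, y2⟩ := mem_filter.1 hy
        have b := hM.load y
        have := d y (mem_erase.1 y1).1
        have := h2 y x
        change 2 ≤ cn M y y
        omega)
    refine ⟨M', b1, fun u v huv => ?_⟩
    rw [b2 u v huv, hM.2 u v huv]
    by_cases r1 : u = w
    · subst r1
      have := h1 u (mem_insert_self _ _) v huv.symm
      simp only [off, mem_singleton, if_true, true_and, mem_filter, mem_erase, mem_univ,
        huv.symm, false_and, or_false, ne_eq, not_false_eq_true]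
      split_ifs <;> omega
    · by_cases r2 : v = w
      · subst r2
        have := h1 v (mem_insert_self _ _) u huv
        rw [hs u v]
        simp only [off, mem_singleton, or_true, if_true, true_and, mem_filter, mem_erase, mem_univ,
          huv, false_and, false_or, ne_eq, not_false_eq_true]
        split_ifs <;> omega
      · simp [off, r1, r2]

end Pool.Agent.MP_5c8b6d_co.JE
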