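import Pool.Agent.MP_5c8b6d_co.je.A

/-! Star multigraphs: a simple graph together with one vertex `z` that carries multiple edges. -/

namespace Pool.Agent.MP_5c8b6d_co.JE

open Finset

set_option linter.unusedSectionVars false

variable {V ι : Type} [Fintype V] [DecidableEq V] [Fintype ι] [DecidableEq ι]
variable {F : SimpleGraph V}

open Classical in
/-- the edges of `F` inside `S` -/
noncomputable def eg (F : SimpleGraph V) (S : Finset V) (u v : V) : ℕ :=
  if u ∈ S ∧ v ∈ S ∧ F.Adj u v then 1 else 0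

theorem eg_pos {S : Finset V} {u v : V} (a : u ∈ S) (b : v ∈ S) (c : F.Adj u v) :
    eg F S u v = 1 := if_pos ⟨a, b, c⟩

theorem eg_neg {S : Finset V} {u v : V} (h : ¬ (u ∈ S ∧ v ∈ S ∧ F.Adj u v)) :
    eg F S u v = 0 := if_neg h

theorem eg_le (S : Finset V) (u v : V) : eg F S u v ≤ 1 := by
  unfold eg; split_ifs <;> omega

theorem eg_symm (S : Finset V) (u v : V) : eg F S u v = eg F S v u := by
  by_cases h : u ∈ S ∧ v ∈ S ∧ F.Adj u v
  · rw [eg_pos h.1 h.2.1 h.2.2, eg_pos h.2.1 h.1 h.2.2.symm]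
  · rw [eg_neg h, eg_neg fun k => h ⟨k.2.1, k.1, k.2.2.symm⟩]

theorem sum_eg {S : Finset V} {u : V} (hu : u ∈ S) (T : Finset V) :
    ∑ v ∈ T, eg F S u v = dg F u (T ∩ S) := by
  classical
  unfold eg dg nb
  rw [← card_filter]
  congr 1; ext v; simp [hu, and_assoc]

theorem dm_eg (S : Finset V) (u : V) : dm (eg F S) u = if u ∈ S then dg F u S else 0 := by
  unfold dm
  split_ifs with h
  · rw [sum_eg h]
    exact dg_congr fun v => by
      simp only [mem_inter, mem_erase, mem_univ, and_true]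
      exact ⟨fun k => ⟨k.1.2, k.2⟩, fun k => ⟨⟨k.2.ne.symm, k.1⟩, k.2⟩⟩
  · exact sum_eq_zero fun v _ => eg_neg fun k => h k.1

/-- from a symmetric proper colour function to involutions -/
theorem of_fun (S : Finset V) (κ : V → V → ι)
    (hs : ∀ u ∈ S, ∀ v ∈ S, F.Adj u v → κ u v = κ v u)
    (hp : ∀ u ∈ S, ∀ v ∈ S, ∀ w ∈ S, F.Adj u v → F.Adj u w → κ u v = κ u w → v = w) :
    ∃ R : ι → V → V, Re R (eg F S) ∧
      ∀ c u, R c u ≠ u → u ∈ S ∧ R c u ∈ S ∧ F.Adj u (R c u) ∧ κ u (R c u) = c := by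
  classical
  let R : ι → V → V := fun c u =>
    if h : ∃ v, u ∈ S ∧ v ∈ S ∧ F.Adj u v ∧ κ u v = c then h.choose else u
  have h1 : ∀ c u v, u ∈ S → v ∈ S → F.Adj u v → κ u v = c → R c u = v := fun c u v a b d e => by
    have he : ∃ v, u ∈ S ∧ v ∈ S ∧ F.Adj u v ∧ κ u v = c := ⟨v, a, b, d, e⟩
    obtain ⟨-, x, y, z⟩ := he.choose_spec
    simp only [R, dif_pos he]
    exact hp u a _ x v b y d (z.trans e.symm)
  have h2 : ∀ c u, R c u ≠ u → u ∈ S ∧ R c u ∈ S ∧ F.Adj u (R c u) ∧ κ u (R c u) = c :=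
    fun c u a => by
      by_cases he : ∃ v, u ∈ S ∧ v ∈ S ∧ F.Adj u v ∧ κ u v = c
      · obtain ⟨v, x, y, z, w⟩ := he
        rw [h1 c u v x y z w]; exact ⟨x, y, z, w⟩
      · exact absurd (dif_neg he) a
  refine ⟨R, ⟨fun c u => ?_, fun u v huv => ?_⟩, h2⟩
  · by_cases a : R c u = u
    · rw [a, a]
    · obtain ⟨x, y, z, w⟩ := h2 c u a
      exact h1 c _ u y x z.symm ((hs u x _ y z).symm.trans w)
  · unfold cn
    by_cases h : u ∈ S ∧ v ∈ S ∧ F.Adj u v
    · rw [eg_pos h.1 h.2.1 h.2.2, card_eq_one]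
      refine ⟨κ u v, ?_⟩
      ext c
      simp only [mem_filter, mem_univ, true_and, mem_singleton]
      refine ⟨fun k => ?_, fun k => h1 c u v h.1 h.2.1 h.2.2 k.symm⟩
      have := (h2 c u (k ▸ huv.symm)).2.2.2
      rw [k] at this
      exact this.symm
    · rw [eg_neg h, card_eq_zero, eq_empty_iff_forall_notMem]
      intro c hc
      have k := (mem_filter.1 hc).2
      obtain ⟨x, y, z, -⟩ := h2 c u (k ▸ huv.symm)
      rw [k] at y z
      exact h ⟨x, y, z⟩

/-- labels with prescribed numbers -/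
theorem lab (p : V → ℕ) (x0 : V) (s : Finset V) : ∀ I : Finset ι, ∑ a ∈ s, p a = I.card →
    ∃ g : ι → V, (∀ c ∈ I, g c ∈ s) ∧ ∀ a ∈ s, (I.filter (fun c => g c = a)).card = p a := by
  induction s using Finset.induction_on with
  | empty =>
    intro I h
    have : I = ∅ := card_eq_zero.1 (by simpa using h.symm)
    exact ⟨fun _ => x0, by simp [this], by simp⟩
  | insert a s ha ih =>
    intro I h
    rw [sum_insert ha] at h
    obtain ⟨T, T1, T2⟩ := exists_subset_card_eq (s := I) (n := p a) (by omega)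
    obtain ⟨g, g1, g2⟩ := ih (I \ T) (by rw [card_sdiff_of_subset T1]; omega)
    refine ⟨fun c => if c ∈ T then a else g c, fun c hc => ?_, fun b hb => ?_⟩
    · by_cases k : c ∈ T
      · simp [k]
      · simp only [if_neg k]
        exact mem_insert_of_mem (g1 c (mem_sdiff.2 ⟨hc, k⟩))
    · rcases mem_insert.1 hb with r | r
      · rw [r, ← T2]
        congr 1; ext c
        by_cases k : c ∈ T
        · simp [k, T1 k]
        · simp only [mem_filter, k, iff_false, not_and, if_false]
          exact fun x y => ha (y ▸ g1 c (mem_sdiff.2 ⟨x, k⟩))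
      · rw [← g2 b r]
        congr 1; ext c
        have : a ≠ b := fun x => ha (x ▸ r)
        by_cases k : c ∈ T <;> simp [k, this]

/-- labels with prescribed joint numbers -/
theorem lab2 (f : ι → V) (p : V → V → ℕ) (x0 : V) (s : Finset V)
    (h : ∀ a, ∑ x ∈ s, p a x = (univ.filter (fun c => f c = a)).card) :
    ∃ o : ι → V, (∀ c, o c ∈ s) ∧
      ∀ a, ∀ x ∈ s, (univ.filter (fun c => f c = a ∧ o c = x)).card = p a x := by
  choose g g1 g2 using fun a => lab (p a) x0 s _ (h a)
  refine ⟨fun c => g (f c) c, fun c => g1 _ c (by simp), fun a x hx => ?_⟩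
  rw [← g2 a x hx, filter_filter]
  congr 1; ext c
  simp only [mem_filter, mem_univ, true_and]
  exact and_congr_right fun k => by rw [k]

/-- an even set can be paired -/
theorem pair {A : Finset V} (h : Even A.card) : ∃ ρ : V → V, (∀ v, ρ (ρ v) = v) ∧ mv ρ = A := by
  classical
  obtain ⟨k, hk⟩ := h
  obtain ⟨T, T1, T2⟩ := exists_subset_card_eq (s := A) (n := k) (by omega)
  have e : T.card = (A \ T).card := by rw [card_sdiff_of_subset T1]; omega
  let b := equivOfCardEq e
  let f : V → V := fun v => if h : v ∈ T then (b ⟨v, h⟩).1 else v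
  have f1 : ∀ v ∈ T, f v ∈ A \ T := fun v hv => by simp only [f, dif_pos hv]; exact (b _).2
  have f2 : Set.InjOn f T := fun u hu v hv x => by
    simp only [f, dif_pos (mem_coe.1 hu), dif_pos (mem_coe.1 hv)] at x
    exact congrArg Subtype.val (b.injective (Subtype.ext x))
  obtain ⟨ρ, r1, -, r3⟩ := exists_inv_of_injOn f2 fun a ha => (mem_sdiff.1 (f1 a ha)).2
  refine ⟨ρ, r1, ?_⟩
  have : T.image f = A \ T := eq_of_subset_of_card_le (image_subset_iff.2 f1)
    (by rw [card_image_of_injOn f2, e])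
  rw [r3, this, union_sdiff_of_subset T1]

/-- the edges inside `S` can be coloured so that no colour meets its owner -/
theorem own (S : Finset V) (o : ι → V)
    (h2 : ∀ x ∈ S, 2 ≤ (univ.filter (fun c => o c = x)).card)
    (hp : ∀ u ∈ S, ∀ v ∈ S, F.Adj u v → ∃ c, o c ≠ u ∧ o c ≠ v) :
    ∃ R : ι → V → V, Re R (eg F S) ∧ ∀ c, R c (o c) = o c := by
  classical
  suffices h : (∃ κ : V → V → ι, (∀ u ∈ S, ∀ v ∈ S, F.Adj u v → κ u v = κ v u) ∧
      (∀ u ∈ S, ∀ v ∈ S, ∀ w ∈ S, F.Adj u v → F.Adj u w → κ u v = κ u w → v = w) ∧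
      ∀ u ∈ S, ∀ v ∈ S, F.Adj u v → o (κ u v) ≠ u) ∨ ∀ u ∈ S, ∀ v ∈ S, ¬ F.Adj u v by
    rcases h with ⟨κ, a, b, d⟩ | h
    · obtain ⟨R, r1, r2⟩ := of_fun S κ a b
      refine ⟨R, r1, fun c => ?_⟩
      by_contra k
      obtain ⟨x, y, z, w⟩ := r2 c _ k
      exact d _ x _ y z (by rw [w])
    · refine ⟨fun _ => id, ⟨fun _ _ => rfl, fun u v huv => ?_⟩, fun _ => rfl⟩
      rw [eg_neg fun k => h u k.1 v k.2.1 k.2.2]
      simp [cn, huv]
  by_cases hS : S.card ≤ 2
  · by_cases h : ∃ u ∈ S, ∃ v ∈ S, F.Adj u v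
    · obtain ⟨u, hu, v, hv, a⟩ := h
      obtain ⟨c, c1, c2⟩ := hp u hu v hv a
      have e : ({u, v} : Finset V) = S := eq_of_subset_of_card_le
        (insert_subset hu (singleton_subset_iff.2 hv)) (by rw [card_pair a.ne]; exact hS)
      have m : ∀ x ∈ S, x = u ∨ x = v := fun x hx => by simpa [← e] using hx
      refine Or.inl ⟨fun _ _ => c, fun _ _ _ _ _ => rfl, fun x hx y hy w hw b d _ => ?_,
        fun x hx _ _ _ => ?_⟩
      · have b1 := b.ne
        have d1 := d.ne
        rcases m x hx with r | r <;> rcases m y hy with s | s <;> rcases m w hw with t | t <;>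
          first | exact s.trans t.symm | exact absurd (r.trans s.symm) b1 |
            exact absurd (r.trans t.symm) d1
      · rcases m x hx with r | r
        · exact r ▸ c1
        · exact r ▸ c2
    · exact Or.inr fun u hu v hv a => h ⟨u, hu, v, hv, a⟩
  left
  obtain ⟨n, hn⟩ : ∃ n, S.card = n + 3 := ⟨S.card - 3, by omega⟩
  have e : S ≃ ZMod (n + 3) := Fintype.equivOfCardEq (by simp [hn])
  have ha : ∀ x : S, ∃ a b : ι, a ≠ b ∧ o a = x ∧ o b = x := fun x => by
    obtain ⟨a, a1, b, b1, k⟩ := one_lt_card.1 (h2 x x.2)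
    exact ⟨a, b, k, (mem_filter.1 a1).2, (mem_filter.1 b1).2⟩
  choose a b ab oa ob using ha
  let j : V → ZMod (n + 3) := fun v => if h : v ∈ S then e ⟨v, h⟩ else 0
  have j1 : ∀ u ∈ S, ∀ v ∈ S, j u = j v → u = v := fun u hu v hv k => by
    simp only [j, dif_pos hu, dif_pos hv] at k
    exact congrArg Subtype.val (e.injective k)
  let A : ZMod (n + 3) → ι := fun s => a (e.symm s)
  let B : ZMod (n + 3) → ι := fun s => b (e.symm s)
  have jA : ∀ s, j (o (A s)) = s := fun s => by simp [A, oa, j]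
  have jB : ∀ s, j (o (B s)) = s := fun s => by simp [B, ob, j]
  have A1 : ∀ s t, A s = A t → s = t := fun s t k => by rw [← jA s, k, jA]
  have B1 : ∀ s t, B s = B t → s = t := fun s t k => by rw [← jB s, k, jB]
  have AB : ∀ s t, A s ≠ B t := fun s t k => by
    have : s = t := by rw [← jA s, k, jB]
    subst this
    exact ab _ k
  let π : ZMod (n + 3) → ZMod (n + 3) := fun s => if s + 1 = 0 then 1 else s + 1
  have n1 : (1 : ZMod (n + 3)) ≠ 0 := by
    have := (ZMod.natCast_eq_zero_iff 1 (n + 3)).not.2 (Nat.not_dvd_of_pos_of_lt one_pos (by omega))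
    simpa using this
  have n2 : (1 : ZMod (n + 3)) + 1 ≠ 0 := by
    have := (ZMod.natCast_eq_zero_iff 2 (n + 3)).not.2 (Nat.not_dvd_of_pos_of_lt two_pos (by omega))
    rw [one_add_one_eq_two]
    simpa using this
  have p0 : ∀ s, π s ≠ 0 := fun s => by
    simp only [π]; split_ifs with k
    · exact n1
    · exact k
  have p1 : ∀ s, π s ≠ s := fun s => by
    simp only [π]; split_ifs with k
    · exact fun x => n2 (by rw [← x] at k; exact k)
    · simpa using n1
  have p2 : ∀ s t, s ≠ 0 → t ≠ 0 → π s = π t → s = t := fun s t x y => by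
    simp only [π]; split_ifs with k l l
    · exact fun _ => add_right_cancel (k.trans l.symm)
    · exact fun z => absurd (by simpa using z) y
    · exact fun z => absurd (by simpa using z) x
    · exact fun z => add_right_cancel z
  have ne : ∀ u ∈ S, ∀ v ∈ S, F.Adj u v → j u ≠ j v := fun u hu v hv k x => k.ne (j1 u hu v hv x)
  refine ⟨fun u v => if j u = 0 then B (π (j v)) else if j v = 0 then B (π (j u))
    else A (j u + j v), fun u hu v hv k => ?_, fun u hu v hv w hw k l => ?_, fun u hu v hv k => ?_⟩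
  · have := ne u hu v hv k
    by_cases x : j u = 0
    · have y : j v ≠ 0 := fun y => this (x.trans y.symm)
      simp [x, y]
    · by_cases y : j v = 0 <;> simp [x, y, add_comm]
  · have q1 := ne u hu v hv k
    have q2 := ne u hu w hw l
    intro z
    refine j1 v hv w hw ?_
    by_cases x : j u = 0
    · simp only [if_pos x] at z
      exact p2 _ _ (fun y => q1 (x.trans y.symm)) (fun y => q2 (x.trans y.symm)) (B1 _ _ z)
    · simp only [if_neg x] at z
      split_ifs at z with y y' y'
      · exact y.trans y'.symm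
      · exact absurd z.symm (AB _ _)
      · exact absurd z (AB _ _)
      · exact add_left_cancel (A1 _ _ z)
  · intro z
    have z' := congrArg j z
    simp only at z'
    split_ifs at z' with x y
    · rw [jB, x] at z'; exact p0 _ z'
    · rw [jB] at z'; exact p1 _ z'
    · rw [jA] at z'; exact y (by simpa using z')

/-- the star multigraph on `P` and `z` -/
noncomputable def star (F : SimpleGraph V) (P : Finset V) (z : V) (Z : V → ℕ) (u v : V) : ℕ :=
  eg F P u v + (if u = z ∧ v ∈ P then Z v else 0) + (if v = z ∧ u ∈ P then Z u else 0)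

theorem dm_star {P : Finset V} {z : V} (hz : z ∉ P) (Z : V → ℕ) (u : V) :
    dm (star F P z Z) u =
      if u ∈ P then dg F u P + Z u else if u = z then ∑ v ∈ P, Z v else 0 := by
  have h := dm_eg (F := F) P u
  unfold dm at h ⊢
  simp only [star, sum_add_distrib, h]
  by_cases a : u ∈ P
  · have b : u ≠ z := fun x => hz (x ▸ a)
    simp [a, b, b.symm]
  · by_cases b : u = z
    · subst b
      simp only [a, if_false, true_and, and_false, sum_const_zero, if_true, zero_add, add_zero]
      rw [← sum_filter]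
      congr 1; ext v
      simp only [mem_filter, mem_erase, mem_univ, and_true]
      exact ⟨fun k => k.2, fun k => ⟨fun x => a (x ▸ k), k⟩⟩
    · simp [a, b]

theorem exists_other (o : ι → V) {u v : V}
    (h : (univ.filter (fun c => o c = u)).card + (univ.filter (fun c => o c = v)).card <
      Fintype.card ι) : ∃ c, o c ≠ u ∧ o c ≠ v := by
  by_contra k
  push Not at k
  have : (univ : Finset ι) ⊆ univ.filter (fun c => o c = u) ∪ univ.filter (fun c => o c = v) :=
    fun c _ => by
      by_cases x : o c = u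
      · simp [x]
      · simp [k c x]
  have := (card_le_card this).trans (card_union_le _ _)
  rw [card_univ] at this
  omega

theorem mv_swap_sub (u v : V) : mv (Equiv.swap u v) ⊆ {u, v} := fun x hx => by
  by_contra k
  simp only [mem_insert, mem_singleton, not_or] at k
  exact mem_mv.1 hx (Equiv.swap_apply_of_ne_of_ne k.1 k.2)

/-- the star lemma -/
theorem star_col {P : Finset V} {z : V} (hz : z ∉ P) (Z : V → ℕ) (h0 : 0 < Fintype.card ι)
    (h1 : ∀ u ∈ P, dg F u P + Z u < Fintype.card ι) (h2 : ∑ u ∈ P, Z u ≤ Fintype.card ι)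
    (h3 : ∀ u ∈ P, ∀ v ∈ P, F.Adj u v → Z u + Z v < Fintype.card ι) :
    ∃ M : ι → V → V, Re M (star F P z Z) := by
  let L := P.filter (fun u => Z u ≤ 1)
  let Q := P.filter (fun u => ¬ Z u ≤ 1)
  have QP : Q ⊆ P := filter_subset _ _
  have zQ : z ∉ Q := fun x => hz (QP x)
  refine add_simple z L _ (fun u v => ?_) (fun x => hz (mem_filter.1 x).1) (fun w hw v _ => ?_)
    (fun v hv => ?_) ?_ ?_
  · simp only [star, eg_symm P u v]; omega
  · obtain ⟨a, b⟩ := mem_filter.1 hw
    have c : w ≠ z := fun x => hz (x ▸ a)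
    by_cases d : v = z
    · have : eg F P w z = 0 := eg_neg fun k => hz k.2.1
      simp [star, this, c, d, a, b]
    · simp [star, c, d, eg_le]
  · rw [dm_star hz]
    split_ifs with a
    · exact h1 v a
    · exact h0
  · rw [dm_star hz, if_neg hz, if_pos rfl]; exact h2
  have e : off (star F P z Z) L = star F Q z Z := by
    funext u v
    have zL : z ∉ L := fun x => hz (mem_filter.1 x).1
    have m : ∀ x, x ∉ L → (x ∈ Q ↔ x ∈ P) := fun x hx => by
      simp only [L, Q, mem_filter, not_and] at hx ⊢; tauto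
    have m' : ∀ x, x ∈ L → x ∉ Q := fun x hx k => (mem_filter.1 k).2 (mem_filter.1 hx).2
    unfold off
    split_ifs with a
    · rcases a with a | a
      · have : u ≠ z := fun x => zL (x ▸ a)
        simp [star, eg, m' u a, this]
      · have : v ≠ z := fun x => zL (x ▸ a)
        simp [star, eg, m' v a, this]
    · have mu := m u (not_or.1 a).1
      have mv := m v (not_or.1 a).2
      have : eg F P u v = eg F Q u v := by
        by_cases x : u ∈ P ∧ v ∈ P ∧ F.Adj u v
        · rw [eg_pos x.1 x.2.1 x.2.2, eg_pos (mu.2 x.1) (mv.2 x.2.1) x.2.2]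
        · rw [eg_neg x, eg_neg fun k => x ⟨mu.1 k.1, mv.1 k.2.1, k.2.2⟩]
      simp only [star, this, mu, mv]
  rw [e]
  have s1 : ∑ u ∈ Q, Z u ≤ ∑ u ∈ P, Z u := sum_le_sum_of_subset QP
  obtain ⟨o, o1, o2⟩ := lab (ι := ι)
    (fun x => if x = z then Fintype.card ι - ∑ u ∈ Q, Z u else Z x) z (insert z Q) univ (by
      rw [sum_insert zQ, if_pos rfl,
        sum_congr rfl fun x hx => if_neg fun k : x = z => zQ (k ▸ hx), card_univ]
      exact Nat.sub_add_cancel (s1.trans h2))
  have o3 : ∀ x ∈ Q, (univ.filter (fun c => o c = x)).card = Z x := fun x hx => by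
    rw [o2 x (mem_insert_of_mem hx), if_neg fun k : x = z => zQ (k ▸ hx)]
  have o4 : ∀ x, x ≠ z → (univ.filter (fun c => o c = x)).card = if x ∈ Q then Z x else 0 :=
    fun x hx => by
      split_ifs with a
      · exact o3 x a
      · rw [card_eq_zero, eq_empty_iff_forall_notMem]
        intro c hc
        have := o1 c (mem_univ c)
        rw [(mem_filter.1 hc).2] at this
        exact (mem_insert.1 this).elim hx a
  obtain ⟨R, r1, r2⟩ := own (F := F) Q o
    (fun x hx => by rw [o3 x hx]; have := (mem_filter.1 hx).2; omega)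
    (fun u hu v hv k => exists_other o (by rw [o3 u hu, o3 v hv]; exact h3 u (QP hu) v (QP hv) k))
  have rz : ∀ c, R c z = z := r1.fix fun v _ => eg_neg fun k => zQ k.1
  have d : ∀ c, Disjoint (mv (R c)) (mv (Equiv.swap z (o c))) := fun c =>
    disjoint_left.2 fun v x y => by
      rcases mem_insert.1 (mv_swap_sub _ _ y) with r | r
      · exact mem_mv.1 x (r ▸ rz c)
      · exact mem_mv.1 x (mem_singleton.1 r ▸ r2 c)
  refine ⟨_, r1.1.glue (N := fun c => Equiv.swap z (o c)) (fun c v => by simp) d,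
    fun u v huv => ?_⟩
  rw [cn_glue (N := fun c => Equiv.swap z (o c)) d huv, r1.2 u v huv, star, add_assoc]
  congr 1
  unfold cn
  by_cases a : u = z
  · have b : v ≠ z := fun x => huv (a.trans x.symm)
    simp [a, b, o4 v b]
  · by_cases b : v = z
    · simp only [a, b, false_and, if_false, true_and, zero_add, ← o4 u a]
      congr 1; ext c
      simp only [mem_filter, mem_univ, true_and, Equiv.swap_apply_eq_iff, Equiv.swap_apply_left]
      exact eq_comm
    · simp only [a, b, false_and, if_false, add_zero, card_eq_zero, eq_empty_iff_forall_notMem]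
      intro c hc
      have k := (mem_filter.1 hc).2
      rw [Equiv.swap_apply_def, if_neg a] at k
      split_ifs at k
      · exact b k.symm
      · exact huv k

/-- the star lemma inside a set of colours -/
theorem star_sub (J : Finset ι) {P : Finset V} {z : V} (hz : z ∉ P) (Z : V → ℕ) (h0 : 0 < J.card)
    (h1 : ∀ u ∈ P, dg F u P + Z u < J.card) (h2 : ∑ u ∈ P, Z u ≤ J.card)
    (h3 : ∀ u ∈ P, ∀ v ∈ P, F.Adj u v → Z u + Z v < J.card) :
    ∃ M : ι → V → V, Re M (star F P z Z) ∧ ∀ c, c ∉ J → ∀ v, M c v = v := by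
  obtain ⟨M, a, b⟩ := star_col (F := F) (ι := J) hz Z (by simpa using h0) (by simpa using h1)
    (by simpa using h2) (by simpa using h3)
  refine ⟨fun c => if h : c ∈ J then M ⟨c, h⟩ else id, ⟨fun c v => ?_, fun u v huv => ?_⟩,
    fun c hc v => by simp [hc]⟩
  · by_cases h : c ∈ J
    · simp only [dif_pos h]; exact a _ v
    · simp [h]
  · rw [← b u v huv]
    refine (card_bij (fun c _ => c.1) (fun c hc => ?_) (fun _ _ _ _ k => Subtype.ext k)
      (fun c hc => ?_)).symm
    · simpa [c.2] using hc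
    · by_cases h : c ∈ J
      · exact ⟨⟨c, h⟩, by simpa [h] using hc, rfl⟩
      · simp [h, huv] at hc

end Pool.Agent.MP_5c8b6d_co.JE
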