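import Pool.Agent.MP_5c8b6d_co.je.B

/-! The case of a small even cut. -/

namespace Pool.Agent.MP_5c8b6d_co.JE

open Finset

set_option linter.unusedSectionVars false

variable {V ι : Type} [Fintype V] [DecidableEq V] [Fintype ι] [DecidableEq ι]
variable {F : SimpleGraph V}

/-- the deficiency of `w` inside `X` with respect to the degree bound `d` -/
noncomputable def df (F : SimpleGraph V) (X : Finset V) (d : ℕ) (w : V) : ℕ := d - dg F w X

/-- the total deficiency inside `X` -/
noncomputable def ph (F : SimpleGraph V) (X : Finset V) (d : ℕ) : ℕ := ∑ w ∈ X, df F X d w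

/-- a colouring of a multigraph on `B` and `z` that contains `F` and misses every vertex of `B`
exactly `t` times -/
structure Good (F : SimpleGraph V) (B : Finset V) (z : V) (t : ℕ) (M : ι → V → V) : Prop where
  iv : Iv M
  out : ∀ c v, v ∉ B → v ≠ z → M c v = v
  cov : ∀ u ∈ B, ∀ v ∈ B, F.Adj u v → ∃ c, M c u = v
  load : ∀ w ∈ B, cn M w w = t

theorem exists_of_cn {M : ι → V → V} {u v : V} (h : 0 < cn M u v) : ∃ c, M c u = v := by
  obtain ⟨c, hc⟩ := card_pos.1 h
  exact ⟨c, (mem_filter.1 hc).2⟩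

theorem small_cut {B S : Finset V} {z : V} {t d : ℕ} (hm : Fintype.card ι = d + t) (hz : z ∉ B)
    (hS : S ⊆ B) (he : Even S.card) (ht : 1 ≤ t) (ht2 : 2 ≤ t ∨ S = ∅)
    (hd : ∀ w ∈ B, dg F w B ≤ d) (hf : ph F (B \ S) d + t * S.card ≤ d + t)
    (h3 : ∀ u ∈ B \ S, ∀ v ∈ B \ S, F.Adj u v → df F (B \ S) d u + df F (B \ S) d v < d + t)
    (h4 : ∀ u ∈ S, ∀ v ∈ S, F.Adj u v → dg F u (B \ S) + dg F v (B \ S) + 2 * t < d + t) :
    ∃ M : ι → V → V, Good F B z t M ∧ cn M z z + ph F (B \ S) d + t * S.card = d + t := by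
  have zS : z ∉ S := fun x => hz (hS x)
  have zB : z ∉ B \ S := fun x => hz (mem_sdiff.1 x).1
  have sp : ∀ w, dg F w (B \ S) + dg F w S = dg F w B := fun w => dg_sdiff_add w hS
  have d1 : ∀ w ∈ B \ S, dg F w (B \ S) + df F (B \ S) d w = d ∧ dg F w S ≤ df F (B \ S) d w :=
    fun w hw => by
      have := hd w (mem_sdiff.1 hw).1
      have := sp w
      unfold df; omega
  have f1 : ∑ u ∈ B \ S, df F (B \ S) d u ≤ Fintype.card ι := by
    have : ph F (B \ S) d ≤ d + t := by omega
    rw [hm]; exact this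
  obtain ⟨M1, m1⟩ := star_col (F := F) (ι := ι) zB (df F (B \ S) d) (by omega)
    (fun u hu => by have := (d1 u hu).1; omega) f1 (by rw [hm]; exact h3)
  have lz : cn M1 z z + ph F (B \ S) d = d + t := by
    have := m1.load z
    rwa [dm_star zB, if_neg zB, if_pos rfl, hm] at this
  have fx1 : ∀ v, v ∉ B \ S → v ≠ z → ∀ c, M1 c v = v := fun v a b =>
    m1.fix fun u _ => by
      rw [star, eg_neg fun k => a k.1, if_neg fun k => b k.1, if_neg fun k => a k.2]
  let p : V → V → ℕ := fun a x =>
    if a ∈ B \ S then (if x = z then df F (B \ S) d a - dg F a S else eg F B a x)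
    else if a = z then (if x = z then cn M1 z z - t * S.card else t) else 0
  have xz : ∀ x ∈ S, x ≠ z := fun x hx k => zS (k ▸ hx)
  obtain ⟨o, o1, o2⟩ := lab2 (fun c => M1 c z) p z (insert z S) fun a => by
    change _ = cn M1 z a
    rw [sum_insert zS]
    by_cases x : a ∈ B \ S
    · have y : z ≠ a := fun k => zB (k ▸ x)
      have e : ∑ x ∈ S, p a x = dg F a S := by
        rw [sum_congr rfl fun y hy => (if_pos x).trans (if_neg (xz y hy)),
          sum_eg (mem_sdiff.1 x).1, inter_eq_left.2 hS]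
      rw [e, m1.2 z a y, star, eg_neg fun k => zB k.1, if_pos ⟨rfl, x⟩, if_neg fun k => zB k.2]
      have := (d1 a x).2
      simp only [p, if_pos x, if_true]
      omega
    · by_cases y : a = z
      · have e : ∑ x ∈ S, p a x = S.card * t := by
          rw [sum_congr rfl fun w hw => (if_neg x).trans ((if_pos y).trans (if_neg (xz w hw))),
            sum_const, smul_eq_mul]
        rw [e]
        simp only [p, if_neg x, if_pos y, if_true]
        rw [y, mul_comm S.card t]
        omega
      · rw [m1.2 z a (Ne.symm y), star, eg_neg fun k => zB k.1, if_neg fun k => x k.2,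
          if_neg fun k => y k.1]
        simp only [p, if_neg x, if_neg y, sum_const_zero]
  have o5 : ∀ x ∈ S, (univ.filter (fun c => o c = x)).card = dg F x (B \ S) + t := fun x hx => by
    rw [card_eq_sum_card_fiberwise (f := fun c => M1 c z) (t := univ) fun _ _ => mem_univ _]
    have e : ∀ a, ((univ.filter (fun c => o c = x)).filter (fun c => M1 c z = a)).card =
        (if a ∈ B \ S then eg F B x a else 0) + if a = z then t else 0 := fun a => by
      rw [filter_filter, filter_congr fun c _ => and_comm, o2 a x (mem_insert_of_mem hx)]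
      simp only [p, if_neg (xz x hx), eg_symm B a x]
      by_cases y : a ∈ B \ S
      · have : a ≠ z := fun k => zB (k ▸ y)
        simp only [if_pos y, if_neg this, add_zero]
      · simp only [if_neg y, zero_add]
    simp only [e, sum_add_distrib]
    rw [← sum_filter, filter_mem_eq_inter, univ_inter, sum_eg (hS hx),
      inter_eq_left.2 sdiff_subset]
    simp
  obtain ⟨R, r1, r2⟩ := own (F := F) S o
    (fun x hx => by
      rw [o5 x hx]
      rcases ht2 with k | k
      · omega
      · exact absurd (k ▸ hx) (notMem_empty x))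
    (fun u hu v hv k => exists_other o (by
      rw [o5 u hu, o5 v hv, hm]
      have := h4 u hu v hv k
      omega))
  have r3 : ∀ c, mv (R c) ⊆ (insert z S).erase (o c) := fun c v hv => by
    refine mem_erase.2 ⟨fun k => mem_mv.1 hv (k ▸ r2 c), mem_insert_of_mem ?_⟩
    by_contra k
    exact mem_mv.1 hv (r1.fix (fun u _ => eg_neg fun x => k x.1) c)
  have r4 : ∀ c, Even (fx (R c) ((insert z S).erase (o c))).card := fun c => by
    have a := card_fx_add (R c) ((insert z S).erase (o c))
    rw [inter_eq_left.2 (r3 c), card_erase_of_mem (o1 c), card_insert_of_notMem zS] at a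
    obtain ⟨x, hx⟩ := even_card_mv (r1.1 c)
    obtain ⟨y, hy⟩ := he
    exact ⟨y - x, by omega⟩
  choose ρ ρ1 ρ2 using fun c => pair (r4 c)
  have g1 : ∀ c, Disjoint (mv (R c)) (mv (ρ c)) := fun c => disjoint_left.2 fun v x y => by
    rw [ρ2] at y
    exact mem_mv.1 x (mem_fx.1 y).2
  have g2 : ∀ c, mv (glue (R c) (ρ c)) = (insert z S).erase (o c) := fun c => by
    rw [mv_glue, ρ2]
    ext v
    simp only [mem_union, mem_fx]
    refine ⟨fun k => k.elim (fun x => r3 c x) And.left, fun k => ?_⟩
    by_cases x : R c v = v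
    · exact Or.inr ⟨k, x⟩
    · exact Or.inl (mem_mv.2 x)
  let N : ι → V → V := fun c v => Equiv.swap z (o c) (M1 c (Equiv.swap z (o c) v))
  have n1 : Iv N := fun c v => by simp [N, m1.1 c]
  have n2 : ∀ c, Disjoint (mv (N c)) (mv (glue (R c) (ρ c))) := fun c =>
    disjoint_left.2 fun v x y => by
      rw [g2] at y
      obtain ⟨y1, y2⟩ := mem_erase.1 y
      have a : Equiv.swap z (o c) v ∈ S := by
        rcases mem_insert.1 y2 with r | r
        · rw [r, Equiv.swap_apply_left]
          exact (mem_insert.1 (o1 c)).resolve_left fun k => y1 (r.trans k.symm)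
        · rwa [Equiv.swap_apply_of_ne_of_ne (xz v r) y1]
      refine mem_mv.1 x ?_
      simp only [N]
      rw [fx1 _ (fun k => (mem_sdiff.1 k).2 a) (xz _ a), Equiv.swap_apply_self]
  have q1 : ∀ c v, v ∉ (insert z S).erase (o c) → glue (N c) (glue (R c) (ρ c)) v = N c v :=
    fun c v hv => by
      by_cases x : N c v = v
      · rw [glue_right x, x]
        by_contra k
        exact hv (g2 c ▸ mem_mv.2 k)
      · exact glue_left x
  have q2 : ∀ c, ∀ v ∈ (insert z S).erase (o c),
      glue (N c) (glue (R c) (ρ c)) v = glue (R c) (ρ c) v ∧ glue (R c) (ρ c) v ≠ v :=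
    fun c v hv => by
      have : glue (R c) (ρ c) v ≠ v := mem_mv.1 (g2 c ▸ hv)
      exact ⟨glue_right' (n2 c) this, this⟩
  have sw : ∀ c v, v ∉ insert z S → Equiv.swap z (o c) v = v := fun c v hv =>
    Equiv.swap_apply_of_ne_of_ne (fun k => hv (k ▸ mem_insert_self _ _)) fun k => hv (k ▸ o1 c)
  have nU : ∀ v ∈ B \ S, v ∉ insert z S := fun v hv k =>
    (mem_insert.1 k).elim (fun x => zB (x ▸ hv)) (mem_sdiff.1 hv).2
  have q3 : ∀ c v, v ∉ insert z S →
      glue (N c) (glue (R c) (ρ c)) v = Equiv.swap z (o c) (M1 c v) := fun c v hv => by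
    rw [q1 c v fun k => hv (mem_erase.1 k).2]
    simp only [N]
    rw [sw c v hv]
  have iv := n1.glue (r1.1.glue ρ1 g1) n2
  have cr : ∀ u ∈ B \ S, ∀ x ∈ S, F.Adj u x → ∃ c, glue (N c) (glue (R c) (ρ c)) u = x :=
    fun u hu x hx k => by
      have a := o2 u x (mem_insert_of_mem hx)
      simp only [p, if_pos hu, if_neg (xz x hx), eg_pos (mem_sdiff.1 hu).1 (hS hx) k] at a
      obtain ⟨c, hc⟩ := card_pos.1 (a ▸ one_pos)
      obtain ⟨c1, c2⟩ := (mem_filter.1 hc).2
      refine ⟨c, ?_⟩
      rw [q3 c u (nU u hu), ← c1, m1.1, Equiv.swap_apply_left, c2]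
  have lU : ∀ x ∈ insert z S, cn (fun c => glue (N c) (glue (R c) (ρ c))) x x = p z x :=
    fun x hx => by
      rw [← o2 z x hx]
      unfold cn
      congr 1; ext c
      simp only [mem_filter, mem_univ, true_and]
      by_cases k : o c = x
      · rw [q1 c x fun y => (mem_erase.1 y).1 k.symm]
        simp only [N]
        rw [← k, Equiv.swap_apply_right, Equiv.swap_apply_eq_iff, Equiv.swap_apply_right]
        simp
      · obtain ⟨a, b⟩ := q2 c x (mem_erase.2 ⟨Ne.symm k, hx⟩)
        rw [a]
        simp [k, b]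
  refine ⟨_, ⟨iv, fun c v a b => ?_, fun u hu v hv k => ?_, fun w hw => ?_⟩, ?_⟩
  · have x : v ∉ insert z S := fun k => (mem_insert.1 k).elim b fun y => a (hS y)
    rw [q3 c v x, fx1 v (fun k => a (mem_sdiff.1 k).1) b, sw c v x]
  · by_cases a : u ∈ S
    · by_cases b : v ∈ S
      · obtain ⟨c, hc⟩ := exists_of_cn (M := R) (u := u) (v := v)
          (by rw [r1.2 u v k.ne, eg_pos a b k]; exact one_pos)
        have x : R c u ≠ u := hc ▸ k.ne.symm
        exact ⟨c, by rw [(q2 c u (r3 c (mem_mv.2 x))).1, glue_left x, hc]⟩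
      · obtain ⟨c, hc⟩ := cr v (mem_sdiff.2 ⟨hv, b⟩) u a k.symm
        exact ⟨c, by rw [← hc]; exact iv c v⟩
    · by_cases b : v ∈ S
      · exact cr u (mem_sdiff.2 ⟨hu, a⟩) v b k
      · have u1 := mem_sdiff.2 ⟨hu, a⟩
        have v1 := mem_sdiff.2 ⟨hv, b⟩
        obtain ⟨c, hc⟩ := exists_of_cn (M := M1) (u := u) (v := v)
          (by rw [m1.2 u v k.ne, star, eg_pos u1 v1 k]; omega)
        exact ⟨c, by rw [q3 c u (nU u u1), hc, sw c v (nU v v1)]⟩
  · by_cases a : w ∈ S
    · rw [lU w (mem_insert_of_mem a)]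
      simp only [p, if_neg zB, if_true, if_neg (xz w a)]
    · have w1 := mem_sdiff.2 ⟨hw, a⟩
      have b := m1.load w
      rw [dm_star zB, if_pos w1, (d1 w w1).1, hm] at b
      have : cn (fun c => glue (N c) (glue (R c) (ρ c))) w w = cn M1 w w := by
        unfold cn
        congr 1; ext c
        simp only [mem_filter, mem_univ, true_and]
        rw [q3 c w (nU w w1), Equiv.swap_apply_eq_iff, sw c w (nU w w1)]
      omega
  · rw [lU z (mem_insert_self _ _)]
    simp only [p, if_neg zB, if_true]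
    omega

end Pool.Agent.MP_5c8b6d_co.JE
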