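import Pool.Agent.MP_5c8b6d_co.je.C

/-! The parity potential: colours with an even number of half edges are removed in pairs. -/

namespace Pool.Agent.MP_5c8b6d_co.JE

open Finset

set_option linter.unusedSectionVars false

variable {V ι : Type} [Fintype V] [DecidableEq V] [Fintype ι] [DecidableEq ι]
variable {F : SimpleGraph V}

/-- a colouring of the edges inside `D` with `δ v` half edges at `v` -/
structure Hf (F : SimpleGraph V) (D : Finset V) (δ : V → ℕ) (R : ι → V → V) (A : ι → Finset V) :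
    Prop where
  re : Re R (eg F D)
  fix : ∀ c, ∀ v ∈ A c, R c v = v
  ld : ∀ v, ld A v = δ v

variable {D : Finset V} {δ : V → ℕ} {R : ι → V → V} {A : ι → Finset V}

theorem Hf.swap (h : Hf F D δ R A) {a b : ι} {K : Finset V}
    (hK : ∀ v ∈ K, R a v ∈ K ∧ R b v ∈ K) : Hf F D δ (swapK R a b K) (swY A a b K) := by
  have r : Rl univ R A _ _ := rl_swap (mem_univ a) (mem_univ b) K
  exact ⟨⟨h.re.1.swap hK, fun u v k => (r.cn_eq u v).trans (h.re.2 u v k)⟩, r.fix h.fix,
    fun v => (r.ld_eq v).trans (h.ld v)⟩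

theorem Hf.inner (h : Hf F D δ R A) {S : Finset V} (hS : S ⊆ D) {y : V} (hy : y ∈ S) :
    (univ.filter (fun c => R c y ≠ y ∧ R c y ∈ S)).card ≤ dg F y S := by
  have e : univ.filter (fun c => R c y ≠ y ∧ R c y ∈ S) =
      (S.erase y).biUnion (fun x => univ.filter (fun c => R c y = x)) := by
    ext c; simp
  rw [e]
  refine card_biUnion_le.trans ?_
  have : ∑ x ∈ S.erase y, (univ.filter (fun c => R c y = x)).card = ∑ x ∈ S.erase y, eg F D y x :=
    sum_congr rfl fun x hx => h.re.2 y x (mem_erase.1 hx).1.symm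
  rw [this, sum_eg (hS hy)]
  exact dg_mono_set y (inter_subset_left.trans (erase_subset _ _))

theorem swapK_fix {a b c : ι} {K : Finset V} {v : V} (ha : R a v = v) (hb : R b v = v)
    (hc : R c v = v) : swapK R a b K c v = v := by
  unfold swapK
  split_ifs
  · rw [Equiv.swap_apply_def]; split_ifs <;> assumption
  · exact hc

theorem reduce (h : Hf F D δ R A) (hf : ∀ c, Even (A c).card → ∀ v, R c v = v)
    (hδ : ∀ v, v ∉ D → δ v = 0)
    (hc : ∀ S ⊆ D, Even S.card → Fintype.card ι ≤
      ∑ y ∈ S, (Fintype.card ι - δ y - dg F y S) + ∑ w ∈ D \ S, δ w + 1) :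
    ∃ (R' : ι → V → V) (A' : ι → Finset V), Hf F D δ R' A' ∧
      (univ.filter (fun c => Even (A' c).card)).card ≤ 1 := by
  classical
  obtain ⟨⟨R, A⟩, a, b⟩ := exists_min_image
    (univ.filter (fun p : (ι → V → V) × (ι → Finset V) =>
      Hf F D δ p.1 p.2 ∧ ∀ c, Even (p.2 c).card → ∀ v, p.1 c v = v))
    (fun p => (univ.filter (fun c => Even (p.2 c).card)).card)
    ⟨(R, A), mem_filter.2 ⟨mem_univ _, h, hf⟩⟩
  clear h hf
  obtain ⟨h, hf⟩ : Hf F D δ R A ∧ ∀ c, Even (A c).card → ∀ v, R c v = v := (mem_filter.1 a).2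
  have imp : ∀ (R' : ι → V → V) (A' : ι → Finset V) (α : ι), Hf F D δ R' A' →
      (∀ c, Even (A' c).card → Even (A c).card ∧ c ≠ α ∧ ∀ v, R' c v = v) → Even (A α).card →
      False := fun R' A' α x y z => by
    have b1 : (univ.filter (fun c => Even (A c).card)).card ≤
        (univ.filter (fun c => Even (A' c).card)).card :=
      b (R', A') (mem_filter.2 ⟨mem_univ _, x, fun c k => (y c k).2.2⟩)
    have b2 : univ.filter (fun c => Even (A' c).card) ⊆
        (univ.filter (fun c => Even (A c).card)).erase α := fun c k =>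
      mem_erase.2 ⟨(y c (mem_filter.1 k).2).2.1,
        mem_filter.2 ⟨mem_univ _, (y c (mem_filter.1 k).2).1⟩⟩
    have b3 := card_le_card b2
    have b4 : α ∈ univ.filter (fun c => Even (A c).card) := mem_filter.2 ⟨mem_univ _, z⟩
    have b5 := card_pos.2 ⟨α, b4⟩
    rw [card_erase_of_mem b4] at b3
    omega
  refine ⟨R, A, h, ?_⟩
  by_contra hn
  obtain ⟨α, h1, β, h2, ab⟩ := one_lt_card.1 (not_le.1 hn)
  have eα := (mem_filter.1 h1).2
  have eβ := (mem_filter.1 h2).2
  have c1 : ∀ a b : ι, Even (A a).card → Even (A b).card → A a ⊆ A b := fun a b x y u hu => by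
    by_contra k
    have ne : a ≠ b := fun e => k (e ▸ hu)
    have e1 := card_swY (Y := A) a b a {u}
    have e2 := card_swY (Y := A) a b b {u}
    rw [Equiv.swap_apply_left, inter_singleton_of_mem hu, inter_singleton_of_notMem k] at e1
    rw [Equiv.swap_apply_right, inter_singleton_of_mem hu, inter_singleton_of_notMem k] at e2
    simp only [card_singleton, card_empty] at e1 e2
    refine imp _ _ a (h.swap (a := a) (b := b) (K := {u}) fun v hv => ?_) (fun c l => ?_) x
    · rw [hf a x, hf b y]; exact ⟨hv, hv⟩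
    · have ca : c ≠ a := by
        rintro rfl
        rw [Nat.even_iff] at l x; omega
      have cb : c ≠ b := by
        rintro rfl
        rw [Nat.even_iff] at l y; omega
      rw [swY_other _ ca cb] at l
      exact ⟨l, ca, fun v => by rw [swapK_other _ ca cb]; exact hf c l v⟩
  obtain ⟨S, hS⟩ : ∃ S, A α = S := ⟨_, rfl⟩
  have hS' : A β = S := hS ▸ Subset.antisymm (c1 β α eβ eα) (c1 α β eα eβ)
  have SD : S ⊆ D := fun v hv => by
    by_contra k
    have x := h.ld v
    rw [hδ v k, ld, card_eq_zero, eq_empty_iff_forall_notMem] at x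
    exact x α (mem_filter.2 ⟨mem_univ _, hS ▸ hv⟩)
  let T : ι → Finset V := fun c => univ.filter (fun v =>
    (v ∈ S ∧ v ∉ A c ∧ ¬ (R c v ≠ v ∧ R c v ∈ S)) ∨ (v ∉ S ∧ v ∈ A c))
  have t0 : ∀ c, A c = S → T c = ∅ := fun c k => eq_empty_iff_forall_notMem.2 fun v hv => by
    rcases (mem_filter.1 hv).2 with r | r
    · exact r.2.1 (k ▸ r.1)
    · exact r.1 (k ▸ r.2)
  have t1 : ∀ c, ∀ v ∈ T c, ((S ∩ {v, R c v}).card + (A c ∩ {v, R c v}).card = 1) ∧
      (R c v ≠ v → v ∈ S ∧ R c v ∉ T c) := fun c v hv => by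
    rcases (mem_filter.1 hv).2 with ⟨r1, r2, r3⟩ | ⟨r1, r2⟩
    · by_cases k : R c v = v
      · rw [k, pair_eq_singleton, inter_singleton_of_mem r1, inter_singleton_of_notMem r2]
        exact ⟨by simp, fun x => absurd rfl x⟩
      · have r4 : R c v ∉ S := fun x => r3 ⟨k, x⟩
        have r5 : R c v ∉ A c := fun x => inv_ne (h.re.1 c) k (h.fix c _ x)
        refine ⟨?_, fun _ => ⟨r1, fun x => ?_⟩⟩
        · rw [inter_insert_of_mem r1, inter_singleton_of_notMem r4, inter_insert_of_notMem r2,
            inter_singleton_of_notMem r5]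
          simp
        · rcases (mem_filter.1 x).2 with s | s
          · exact r4 s.1
          · exact r5 s.2
    · have k := h.fix c v r2
      rw [k, pair_eq_singleton, inter_singleton_of_mem r2, inter_singleton_of_notMem r1]
      exact ⟨by simp, fun x => absurd rfl x⟩
  have t2 : ∀ c, (T c).card ≤ 1 := fun γ => by
    by_contra k
    obtain ⟨v1, a1, v2, a2, ne⟩ := one_lt_card.1 (not_le.1 k)
    have gα : γ ≠ α := by
      rintro rfl
      rw [t0 _ hS] at a1; exact notMem_empty _ a1
    have gβ : γ ≠ β := by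
      rintro rfl
      rw [t0 _ hS'] at a1; exact notMem_empty _ a1
    have cl : ∀ v, ∀ x ∈ ({v, R γ v} : Finset V), R γ x ∈ ({v, R γ v} : Finset V) := fun v x hx => by
      rcases mem_insert.1 hx with r | r
      · rw [r]; simp
      · rw [mem_singleton.1 r, h.re.1]; simp
    have n2 : v2 ∉ ({v1, R γ v1} : Finset V) := fun x => by
      rcases mem_insert.1 x with r | r
      · exact ne r.symm
      · have r' := mem_singleton.1 r
        exact ((t1 γ v1 a1).2 (r' ▸ ne.symm)).2 (r' ▸ a2)
    have dj : ∀ x ∈ ({v2, R γ v2} : Finset V), x ∉ ({v1, R γ v1} : Finset V) := fun x hx y => by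
      rcases mem_insert.1 hx with r | r
      · exact n2 (r ▸ y)
      · have := cl v1 x y
        rw [mem_singleton.1 r, h.re.1] at this
        exact n2 this
    have s1 := h.swap (a := α) (b := γ) (K := {v1, R γ v1}) fun v hv =>
      ⟨by rw [hf α eα]; exact hv, cl v1 v hv⟩
    have rβ : swapK R α γ {v1, R γ v1} β = R β := swapK_other _ ab.symm gβ.symm
    have yβ : swY A α γ {v1, R γ v1} β = S := (swY_other _ ab.symm gβ.symm).trans hS'
    have s2 := s1.swap (a := β) (b := γ) (K := {v2, R γ v2}) fun v hv =>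
      ⟨by rw [rβ, hf β eβ]; exact hv, by rw [swapK_not (dj v hv)]; exact cl v2 v hv⟩
    have yγ : swY A α γ {v1, R γ v1} γ ∩ {v2, R γ v2} = A γ ∩ {v2, R γ v2} := by
      ext x
      simp only [mem_inter]
      exact and_congr_left fun hx => by rw [mem_swY, if_neg (dj x hx)]
    have e1 := card_swY (Y := A) α γ α {v1, R γ v1}
    have e2 := card_swY (Y := A) α γ γ {v1, R γ v1}
    have e3 := card_swY (Y := swY A α γ {v1, R γ v1}) β γ β {v2, R γ v2}
    have e4 := card_swY (Y := swY A α γ {v1, R γ v1}) β γ γ {v2, R γ v2}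
    rw [Equiv.swap_apply_left, hS] at e1
    rw [Equiv.swap_apply_right, hS] at e2
    rw [Equiv.swap_apply_left, yβ, yγ] at e3
    rw [Equiv.swap_apply_right, yβ, yγ] at e4
    have p1 := (t1 γ v1 a1).1
    have p2 := (t1 γ v2 a2).1
    have eS : S.card % 2 = 0 := Nat.even_iff.1 (hS ▸ eα)
    refine imp _ _ α s2 (fun c l => ?_) eα
    have cα : c ≠ α := by
      rintro rfl
      rw [swY_other _ ab gα.symm, Nat.even_iff] at l; omega
    have cβ : c ≠ β := by
      rintro rfl
      rw [Nat.even_iff] at l; omega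
    by_cases cγ : c = γ
    · subst cγ
      have l' : Even (A c).card := by rw [Nat.even_iff] at l ⊢; omega
      refine ⟨l', cα, fun v => swapK_fix (by rw [rβ]; exact hf β eβ v) ?_ ?_⟩ <;>
        exact swapK_fix (hf α eα v) (hf c l' v) (hf c l' v)
    · rw [swY_other _ cβ cγ, swY_other _ cα cγ] at l
      exact ⟨l, cα, fun v => by rw [swapK_other _ cβ cγ, swapK_other _ cα cγ]; exact hf c l v⟩
  have u1 : ∑ c, (T c).card + 2 ≤ Fintype.card ι := by
    have m : β ∈ univ.erase α := mem_erase.2 ⟨ab.symm, mem_univ _⟩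
    rw [← add_sum_erase _ _ (mem_univ α), ← add_sum_erase _ _ m, t0 α hS, t0 β hS']
    have x := sum_le_card_nsmul ((univ.erase α).erase β) (fun c => (T c).card) 1 fun c _ => t2 c
    rw [card_erase_of_mem m, card_erase_of_mem (mem_univ α), card_univ, smul_eq_mul] at x
    have := one_lt_card.2 ⟨α, mem_univ α, β, mem_univ β, ab⟩
    rw [card_univ] at this
    simp only [card_empty]
    omega
  have u2 : ∀ y ∈ S, Fintype.card ι - δ y - dg F y S ≤ ld T y := fun y hy => by
    have x := h.inner SD hy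
    have x1 := h.ld y
    have x2 : (univ : Finset ι) ⊆ univ.filter (fun c => y ∈ T c) ∪ univ.filter (fun c => y ∈ A c) ∪
        univ.filter (fun c => R c y ≠ y ∧ R c y ∈ S) := fun c _ => by
      simp only [T, mem_union, mem_filter, mem_univ, true_and]
      tauto
    have x3 := (card_le_card x2).trans ((card_union_le _ _).trans
      (Nat.add_le_add_right (card_union_le _ _) _))
    rw [card_univ] at x3
    unfold ld at x1 ⊢
    omega
  have u3 : ∀ w ∈ D \ S, δ w ≤ ld T w := fun w hw => by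
    rw [← h.ld w]
    refine card_le_card fun c k => mem_filter.2 ⟨mem_univ _, mem_filter.2 ⟨mem_univ _, ?_⟩⟩
    exact Or.inr ⟨(mem_sdiff.1 hw).2, (mem_filter.1 k).2⟩
  have u4 := sum_le_sum u2
  have u5 := sum_le_sum u3
  have u6 := sum_sdiff (f := ld T) SD
  have u7 : ∑ v ∈ D, ld T v ≤ ∑ v, ld T v := sum_le_sum_of_subset (subset_univ D)
  have u8 := sum_card_ld T
  have u9 := hc S SD (hS ▸ eα)
  omega

end Pool.Agent.MP_5c8b6d_co.JE
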