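import Pool.Agent.MP_5c8b6d_co.je.D

/-! The case where the deficient vertices form a clique. -/

namespace Pool.Agent.MP_5c8b6d_co.JE

open Finset

set_option linter.unusedSectionVars false

variable {V ι : Type} [Fintype V] [DecidableEq V] [Fintype ι] [DecidableEq ι]
variable {F : SimpleGraph V}

theorem ph_split {B S : Finset V} {d : ℕ} (hS : S ⊆ B) (hd : ∀ w ∈ B, dg F w B ≤ d) :
    ph F (B \ S) d = ∑ w ∈ B \ S, df F B d w + ∑ y ∈ S, dg F y (B \ S) := by
  rw [sum_dg_comm S (B \ S), ← sum_add_distrib]
  refine sum_congr rfl fun w hw => ?_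
  have := hd w (mem_sdiff.1 hw).1
  have := dg_sdiff_add (G := F) w hS
  unfold df; omega

/-- the count for two adjacent vertices -/
theorem ph_pair {B : Finset V} {d : ℕ} {u v : V} (hu : u ∈ B) (hv : v ∈ B) (k : F.Adj u v)
    (hd : ∀ w ∈ B, dg F w B ≤ d) : ∃ a b e : ℕ, a = dg F u (B \ {u, v}) ∧ b = dg F v (B \ {u, v}) ∧
      ph F (B \ {u, v}) d = e + a + b ∧ ph F B d = e + df F B d u + df F B d v ∧
      df F B d u + a + 1 = d ∧ df F B d v + b + 1 = d := by
  have hS : ({u, v} : Finset V) ⊆ B := insert_subset hu (singleton_subset_iff.2 hv)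
  have e1 : ∀ x y : V, F.Adj x y → dg F x {x, y} = 1 := fun x y l => by
    rw [dg, card_eq_one]
    refine ⟨y, ?_⟩
    ext w
    simp only [mem_nb, mem_insert, mem_singleton]
    exact ⟨fun r => r.1.resolve_left r.2.ne.symm, fun r => ⟨Or.inr r, r ▸ l⟩⟩
  have e2 := e1 u v k
  have e3 := e1 v u k.symm
  rw [pair_comm] at e3
  have e4 := dg_sdiff_add (G := F) u hS
  have e5 := dg_sdiff_add (G := F) v hS
  have e6 := hd u hu
  have e7 := hd v hv
  refine ⟨_, _, ∑ w ∈ B \ {u, v}, df F B d w, rfl, rfl, ?_, ?_, ?_, ?_⟩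
  · rw [ph_split hS hd, sum_pair k.ne, add_assoc]
  · rw [ph, ← sum_sdiff hS, sum_pair k.ne, add_assoc]
  · unfold df; omega
  · unfold df; omega

/-- from a state with few even colours to a good colouring -/
theorem good_of_hf {B D : Finset V} {z : V} {t d : ℕ} (hm : Fintype.card ι = d + t) (hz : z ∉ B)
    (ht : 1 ≤ t) (hD : D ⊆ B) (hd : ∀ w ∈ B, dg F w B ≤ d) (hW : ∀ w ∈ B, w ∉ D → dg F w B = d)
    {R : ι → V → V} {A : ι → Finset V}
    (h : Hf F D (fun v => if v ∈ D then df F B d v else 0) R A) :
    ∃ M : ι → V → V, Good F B z t M ∧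
      cn M z z = (univ.filter (fun c => Even (A c).card)).card := by
  have zD : z ∉ D := fun x => hz (hD x)
  have aD : ∀ c, ∀ v ∈ A c, v ∈ D := fun c v hv => by
    by_contra k
    have x := h.ld v
    rw [if_neg k, ld, card_eq_zero, eq_empty_iff_forall_notMem] at x
    exact x c (mem_filter.2 ⟨mem_univ _, hv⟩)
  have zA : ∀ c, z ∉ A c := fun c x => zD (aD c z x)
  have rz : ∀ c, R c z = z := h.re.fix fun v _ => eg_neg fun k => zD k.1
  have ev : ∀ c, Even (if Even (A c).card then A c else insert z (A c)).card := fun c => by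
    split_ifs with k
    · exact k
    · rw [card_insert_of_notMem (zA c)]; exact Nat.even_add_one.2 k
  choose ρ ρ1 ρ2 using fun c => pair (ev c)
  have ρ3 : ∀ c v, v ≠ z → (ρ c v = v ↔ v ∉ A c) := fun c v hv => by
    rw [← not_iff_not, not_not, ← ne_eq, ← mem_mv, ρ2]
    split_ifs <;> simp [hv]
  have ρ4 : ∀ c, ρ c z = z ↔ Even (A c).card := fun c => by
    rw [← not_iff_not, ← ne_eq, ← mem_mv, ρ2]
    split_ifs with k <;> simp [k, zA c]
  have g1 : ∀ c, Disjoint (mv (R c)) (mv (ρ c)) := fun c => disjoint_left.2 fun v x y => by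
    by_cases k : v = z
    · exact mem_mv.1 x (k ▸ rz c)
    · exact mem_mv.1 x (h.fix c v (not_not.1 ((ρ3 c v k).not.1 (mem_mv.1 y))))
  obtain ⟨N, hN⟩ : ∃ N : ι → V → V, N = fun c => glue (R c) (ρ c) := ⟨_, rfl⟩
  have n1 : Iv N := hN ▸ h.re.1.glue ρ1 g1
  have n2 : cn N z z = (univ.filter (fun c => Even (A c).card)).card := by
    unfold cn
    congr 1; ext c
    simp only [mem_filter, mem_univ, true_and, hN]
    rw [glue_right (rz c), ρ4]
  have n3 : ∀ v, v ≠ z → cn N v v + ld A v = cn R v v := fun v hv => by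
    unfold cn ld
    rw [← card_union_of_disjoint]
    · congr 1; ext c
      simp only [mem_filter, mem_univ, true_and, hN, mem_union]
      by_cases k : R c v = v
      · rw [glue_right k, ρ3 c v hv]; tauto
      · rw [glue_left k]
        exact ⟨fun x => x.elim id (h.fix c v), Or.inl⟩
    · refine disjoint_left.2 fun c x y => ?_
      have y1 := (mem_filter.1 y).2
      have x1 := (mem_filter.1 x).2
      simp only [hN] at x1
      rw [glue_right (h.fix c v y1), ρ3 c v hv] at x1
      exact x1 y1
  have n4 : ∀ v, cn N v v + dm (cn N) v = d + t := fun v =>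
    hm ▸ Re.load (M := N) ⟨n1, fun _ _ _ => rfl⟩ v
  have n5 : ∀ v, v ≠ z → dm (cn N) v = if v ∈ D then dg F v D + df F B d v else 0 := fun v hv => by
    have a := n3 v hv
    have b := h.re.load v
    have c := n4 v
    rw [h.ld] at a
    rw [dm_eg, hm] at b
    split_ifs at a b ⊢ <;> omega
  have n6 : ∀ v, v ≠ z → v ∉ D → ∀ u, v ≠ u → cn N v u = 0 := fun v a b u c => by
    have x := n5 v a
    rw [if_neg b, dm, sum_eq_zero_iff] at x
    exact x u (mem_erase.2 ⟨c.symm, mem_univ _⟩)
  let ew : V → V → ℕ := fun u v => if u ∈ D ∧ v ∈ D then 0 else eg F B u v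
  have w1 : ∀ v, dm ew v = if v ∈ D then dg F v (B \ D) else if v ∈ B then dg F v B else 0 :=
    fun v => by
      by_cases a : v ∈ D
      · rw [if_pos a, dm]
        simp only [ew, a, true_and]
        rw [sum_ite, sum_const_zero, zero_add, sum_eg (hD a)]
        exact dg_congr fun u => by
          simp only [mem_inter, mem_filter, mem_erase, mem_univ, and_true, mem_sdiff]
          exact ⟨fun k => ⟨⟨k.1.2, k.1.1.2⟩, k.2⟩, fun k => ⟨⟨⟨k.2.ne.symm, k.1.2⟩, k.1.1⟩, k.2⟩⟩
      · rw [if_neg a, ← dm_eg]
        simp only [dm, ew, a, false_and, if_false]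
  have w2 : ∀ v, dm (fun u v => cn N u v + ew u v) v = dm (cn N) v + dm ew v := fun v => by
    simp only [dm, sum_add_distrib]
  have w3 : ∀ v, v ≠ z → dm (fun u v => cn N u v + ew u v) v = if v ∈ B then d else 0 :=
    fun v hv => by
      rw [w2, n5 v hv, w1]
      by_cases a : v ∈ D
      · have := dg_sdiff_add (G := F) v hD
        have := hd v (hD a)
        simp only [if_pos a, if_pos (hD a), df]
        omega
      · by_cases b : v ∈ B
        · simp only [if_neg a, if_pos b, hW v b a, zero_add]
        · simp only [if_neg a, if_neg b]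
  have w4 : dm (fun u v => cn N u v + ew u v) z = dm (cn N) z := by
    rw [w2, w1, if_neg zD, if_neg hz, add_zero]
  have bz : ∀ w ∈ B, w ≠ z := fun w hw k => hz (k ▸ hw)
  obtain ⟨M, hM⟩ := add_simple (ι := ι) z (B \ D) (fun u v => cn N u v + ew u v)
    (fun u v => by simp only [ew, n1.cn_symm u v, eg_symm B u v, and_comm])
    (fun x => hz (mem_sdiff.1 x).1)
    (fun w hw v hv => by
      obtain ⟨a, b⟩ := mem_sdiff.1 hw
      have := eg_le (F := F) B w v
      simp only [n6 w (bz w a) b v hv.symm, ew, b, false_and, if_false]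
      omega)
    (fun v hv => by rw [w3 v hv]; split_ifs <;> omega)
    (by have := n4 z; omega)
    ⟨N, n1, fun u v huv => by
      unfold off
      split_ifs with k
      · rcases k with k | k
        · exact n6 u (bz u (mem_sdiff.1 k).1) (mem_sdiff.1 k).2 v huv
        · rw [n1.cn_symm]
          exact n6 v (bz v (mem_sdiff.1 k).1) (mem_sdiff.1 k).2 u huv.symm
      · simp only [ew]
        split_ifs with l
        · rfl
        · rw [eg_neg, add_zero]
          simp only [mem_sdiff] at k
          tauto⟩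
  refine ⟨M, ⟨hM.1, fun c v a b => fix_of_cn ?_ c, fun u hu v hv k => exists_of_cn ?_,
    fun w hw => ?_⟩, ?_⟩
  · have := hM.load v
    rwa [w3 v b, if_neg a] at this
  · rw [hM.2 u v k.ne]
    simp only [ew]
    split_ifs with l
    · rw [hN, cn_glue g1 k.ne, h.re.2 u v k.ne, eg_pos l.1 l.2 k]; omega
    · rw [eg_pos hu hv k]; omega
  · have := hM.load w
    rw [w3 w (bz w hw), if_pos hw] at this
    omega
  · have := hM.load z
    have := n4 z
    omega

theorem clique_case {B : Finset V} {z : V} {t d : ℕ} (hm : Fintype.card ι = d + t) (hz : z ∉ B)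
    (ht : 2 ≤ t) (hd : ∀ w ∈ B, dg F w B ≤ d)
    (hq : ∀ u ∈ B, ∀ v ∈ B, dg F u B < d → dg F v B < d → u ≠ v → F.Adj u v)
    (hB : ∀ S ⊆ B, Even S.card → d + t < ph F (B \ S) d + t * S.card) :
    ∃ M : ι → V → V, Good F B z t M ∧ cn M z z ≤ 1 := by
  obtain ⟨D, hD⟩ : ∃ D, D = B.filter (fun w => dg F w B < d) := ⟨_, rfl⟩
  have mD : ∀ w, w ∈ D ↔ w ∈ B ∧ dg F w B < d := fun w => by rw [hD, mem_filter]
  have DB : D ⊆ B := fun w hw => ((mD w).1 hw).1
  have zD : z ∉ D := fun x => hz (DB x)
  have hW : ∀ w ∈ B, w ∉ D → dg F w B = d := fun w a b => by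
    have := hd w a
    have := (mD w).not.1 b
    by_contra k
    exact this ⟨a, by omega⟩
  have sD : ∀ S : Finset V, ∑ w ∈ D \ S, df F B d w = ∑ w ∈ B \ S, df F B d w := fun S =>
    sum_subset (sdiff_subset_sdiff DB Subset.rfl) fun w a b => by
      obtain ⟨a1, a2⟩ := mem_sdiff.1 a
      rw [df, hW w a1 fun k => b (mem_sdiff.2 ⟨k, a2⟩), Nat.sub_self]
  have H : d + t < ∑ w ∈ D, df F B d w := by
    have a := hB ∅ (empty_subset _) (by simp)
    have b := sD ∅
    simp only [sdiff_empty, card_empty, mul_zero, add_zero] at a b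
    rwa [b]
  have adj : ∀ u ∈ D, ∀ v ∈ D, u ≠ v → F.Adj u v := fun u a v b =>
    hq u (DB a) v (DB b) ((mD u).1 a).2 ((mD v).1 b).2
  have q1 : ∀ u ∈ D, dg F u D + 1 = D.card := fun u hu => by
    have : nb F u D = D.erase u := by
      ext v
      simp only [mem_nb, mem_erase]
      exact ⟨fun k => ⟨k.2.ne.symm, k.1⟩, fun k => ⟨k.2, adj u hu v k.2 k.1.symm⟩⟩
    rw [dg, this, card_erase_add_one hu]
  have q2 : ∀ u ∈ D, 1 ≤ df F B d u ∧ df F B d u + D.card ≤ d + 1 := fun u hu => by
    have := q1 u hu
    have := dg_mono_set (G := F) u DB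
    have := ((mD u).1 hu).2
    unfold df; omega
  obtain ⟨u0, u1, u2⟩ := exists_max_image D (df F B d)
    (nonempty_of_sum_ne_zero (f := df F B d) (by omega))
  obtain ⟨v0, v1, v2⟩ : ∃ v ∈ D.erase u0, 2 ≤ df F B d v := by
    by_contra k
    push Not at k
    have a : ∑ x ∈ D.erase u0, df F B d x ≤ (D.erase u0).card • 1 :=
      sum_le_card_nsmul (D.erase u0) (df F B d) 1 fun v hv => by have := k v hv; omega
    have b := add_sum_erase D (df F B d) u1
    have c := card_erase_add_one u1
    have := q2 u0 u1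
    rw [smul_eq_mul] at a
    omega
  obtain ⟨vu, v1⟩ := mem_erase.1 v1
  have u3 := u2 v0 v1
  have q3 : 3 ≤ D.card := by
    by_contra k
    have e : ({u0, v0} : Finset V) = D := eq_of_subset_of_card_le
      (insert_subset u1 (singleton_subset_iff.2 v1)) (by rw [card_pair vu.symm]; omega)
    obtain ⟨a, b, c, -, -, p1, p2, p3, p4⟩ := ph_pair (DB u1) (DB v1) (adj u0 u1 v0 v1 vu.symm) hd
    have x := hB {u0, v0} (e ▸ DB) (by rw [card_pair vu.symm]; exact even_two)
    have y := sD ∅
    simp only [sdiff_empty] at y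
    rw [card_pair vu.symm] at x
    rw [ph, ← y, ← e, sum_pair vu.symm] at p2
    rw [← e, sum_pair vu.symm] at H
    omega
  let Z : V → ℕ := fun u => 1 + (if u = u0 then 1 else 0) + if u = v0 then 1 else 0
  have z1 : ∑ u ∈ D, Z u = D.card + 2 := by simp [Z, sum_add_distrib, u1, v1]
  have z2 : ∀ u ∈ D, 1 ≤ Z u ∧ Z u ≤ 2 ∧ Z u ≤ df F B d u := fun u hu => by
    have := q2 u hu
    simp only [Z]
    split_ifs with a b b
    · exact absurd (b.symm.trans a) vu
    · subst a; omega
    · subst b; omega
    · omega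
  obtain ⟨J, -, hJ⟩ := exists_subset_card_eq (s := (univ : Finset ι)) (n := D.card + 2)
    (by have := q2 v0 v1; rw [card_univ]; omega)
  obtain ⟨M, m1, m2⟩ := star_sub (F := F) J zD Z (by omega)
    (fun u hu => by have := q1 u hu; have := z2 u hu; omega) (by omega)
    (fun u hu v hv _ => by have := z2 u hu; have := z2 v hv; omega)
  have cJ : Jᶜ.card + D.card + 2 = d + t := by
    have := card_add_card_compl J
    omega
  have m3 : ∀ c ∈ J, M c z ≠ z := fun c hc k => by
    have a := m1.load z
    rw [dm_star zD, if_neg zD, if_pos rfl, z1] at a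
    have b : Jᶜ = univ.filter (fun c => M c z = z) := eq_of_subset_of_card_le
      (fun c hc => mem_filter.2 ⟨mem_univ _, m2 c (mem_compl.1 hc) z⟩) (by unfold cn at a; omega)
    exact mem_compl.1 (b ▸ mem_filter.2 ⟨mem_univ _, k⟩ : c ∈ Jᶜ) hc
  have m4 : ∀ v, v ≠ z → cn M z v = if v ∈ D then Z v else 0 := fun v hv => by
    rw [m1.2 z v hv.symm, star, eg_neg fun k => zD k.1, if_neg fun k : v = z ∧ z ∈ D => zD k.2]
    simp
  have hT : ∀ u, ∃ T ⊆ Jᶜ, T.card = if u ∈ D then df F B d u - Z u else 0 := fun u => by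
    refine exists_subset_card_eq ?_
    split_ifs with a
    · have := q2 u a
      have := z2 u a
      omega
    · exact Nat.zero_le _
  choose T T1 T2 using hT
  have h0 : Hf F D (fun v => if v ∈ D then df F B d v else 0)
      (fun c v => if v = z ∨ M c v = z then v else M c v)
      (fun c => if c ∈ J then {M c z} else univ.filter (fun v => c ∈ T v)) := by
    refine ⟨⟨fun c v => ?_, fun u v huv => ?_⟩, fun c v hv => ?_, fun v => ?_⟩
    · by_cases a : v = z ∨ M c v = z
      · simp only [if_pos a]
      · simp only [if_neg a, m1.1 c v]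
        rw [if_neg fun k => a k.symm]
    · by_cases a : u = z
      · rw [eg_neg fun k => zD (a ▸ k.1)]
        simp [cn, a, a ▸ huv]
      · by_cases b : v = z
        · rw [eg_neg fun k => zD (b ▸ k.2.1), cn, card_eq_zero, eq_empty_iff_forall_notMem]
          intro c hc
          have k := (mem_filter.1 hc).2
          split_ifs at k with l
          · exact huv k
          · exact l (Or.inr (k.trans b))
        · have x := m1.2 u v huv
          rw [star, if_neg fun k => a k.1, if_neg fun k => b k.1, add_zero, add_zero] at x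
          rw [← x]
          unfold cn
          congr 1; ext c
          simp only [mem_filter, mem_univ, true_and, a, false_or]
          split_ifs with l
          · exact ⟨fun k => absurd k huv, fun k => absurd (k.symm.trans l) b⟩
          · rfl
    · by_cases a : c ∈ J
      · simp only [if_pos a, mem_singleton] at hv
        exact if_pos (Or.inr (by rw [hv, m1.1]))
      · simp only [m2 c a v, ite_self]
    · have e : univ.filter (fun c => v ∈ (if c ∈ J then {M c z} else
          univ.filter (fun v => c ∈ T v) : Finset V)) = J.filter (fun c => M c z = v) ∪ T v := by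
        ext c
        by_cases a : c ∈ J
        · have : c ∉ T v := fun k => mem_compl.1 (T1 v k) a
          simp [a, this, eq_comm]
        · simp [a]
      rw [ld, e, card_union_of_disjoint (disjoint_left.2 fun c x y =>
        mem_compl.1 (T1 v y) (mem_filter.1 x).1), T2]
      have e2 : (J.filter (fun c => M c z = v)).card = if v ∈ D then Z v else 0 := by
        by_cases a : v = z
        · rw [a, if_neg zD, card_eq_zero, filter_eq_empty_iff]
          exact m3
        · rw [← m4 v a, cn]
          congr 1; ext c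
          simp only [mem_filter, mem_univ, true_and, and_iff_right_iff_imp]
          intro k
          by_contra l
          exact a (k.symm.trans (m2 c l z))
      rw [e2]
      split_ifs with a
      · have := z2 v a; omega
      · rfl
  obtain ⟨R, A, a1, a2⟩ := reduce h0
    (fun c k v => by
      by_cases a : c ∈ J
      · simp [a] at k
      · simp only [m2 c a v, ite_self])
    (fun v hv => if_neg hv)
    (fun S hS he => by
      have x := hB S (hS.trans DB) he
      have e1 : ∑ y ∈ S, (Fintype.card ι - (if y ∈ D then df F B d y else 0) - dg F y S) =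
          ∑ y ∈ S, (dg F y (B \ S) + t) := sum_congr rfl fun y hy => by
        have := dg_sdiff_add (G := F) y (hS.trans DB)
        have := hd y (DB (hS hy))
        rw [if_pos (hS hy), df]; omega
      have e2 : ∑ w ∈ D \ S, (if w ∈ D then df F B d w else 0) = ∑ w ∈ D \ S, df F B d w :=
        sum_congr rfl fun w hw => if_pos (mem_sdiff.1 hw).1
      rw [ph_split (hS.trans DB) hd] at x
      rw [e1, e2, sD, sum_add_distrib, sum_const, smul_eq_mul, mul_comm S.card t]
      omega)
  obtain ⟨N, b1, b2⟩ := good_of_hf hm hz (by omega) DB hd hW a1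
  exact ⟨N, b1, b2 ▸ a2⟩

end Pool.Agent.MP_5c8b6d_co.JE
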