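import Pool.Agent.MP_5c8b6d_co.je.E

/-! The induction on the deficiency. -/

namespace Pool.Agent.MP_5c8b6d_co.JE

open Finset

set_option linter.unusedSectionVars false

variable {V ι : Type} [Fintype V] [DecidableEq V] [Fintype ι] [DecidableEq ι]

theorem no_def {F : SimpleGraph V} {B : Finset V} {d : ℕ} (hk : B.card = d + 1)
    (hq : ∀ u ∈ B, ∀ v ∈ B, dg F u B < d → dg F v B < d → u ≠ v → F.Adj u v) :
    ∀ u ∈ B, df F B d u = 0 := fun u hu => by
  by_contra k
  have k1 : dg F u B < d := by unfold df at k; omega
  have a : B.erase u ⊆ nb F u B := fun w hw => by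
    obtain ⟨w1, w2⟩ := mem_erase.1 hw
    refine mem_nb.2 ⟨w2, ?_⟩
    by_cases x : dg F w B < d
    · exact hq u hu w w2 k1 x w1.symm
    · have e : nb F w B = B.erase w := eq_of_subset_of_card_le
        (fun y hy => mem_erase.2 ⟨(mem_nb.1 hy).2.ne.symm, (mem_nb.1 hy).1⟩)
        (by rw [card_erase_of_mem w2]; unfold dg at x; omega)
      exact (mem_nb.1 (e ▸ mem_erase.2 ⟨w1.symm, hu⟩ : u ∈ nb F w B)).2.symm
  have b := card_le_card a
  rw [card_erase_of_mem hu] at b
  unfold dg at k1
  omega

theorem dg_edge (u v w : V) (X : Finset V) :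
    dg (SimpleGraph.edge u v) w X ≤ (if w = u then 1 else 0) + if w = v then 1 else 0 := by
  have : nb (SimpleGraph.edge u v) w X ⊆
      (if w = u then {v} else ∅) ∪ (if w = v then {u} else ∅) := fun y hy => by
    rcases (SimpleGraph.edge_adj u v w y |>.1 (mem_nb.1 hy).2).1 with r | r
    · exact mem_union_left _ (by simp [r.1, r.2])
    · exact mem_union_right _ (by simp [r.1, r.2])
  refine (card_le_card this).trans ((card_union_le _ _).trans ?_)
  split_ifs <;> simp

theorem core {B : Finset V} {z : V} {t d β : ℕ} (hm : Fintype.card ι = d + t) (hz : z ∉ B)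
    (ht : 1 ≤ t) (tk : t * B.card + β ≤ t * (d + t)) (h1 : 2 ≤ t ∨ B.card = d + 1) :
    ∀ (n : ℕ) (F : SimpleGraph V), ph F B d < n → (∀ w ∈ B, dg F w B ≤ d) →
      (∀ S ⊆ B, Even S.card → 2 ≤ t ∨ S = ∅ →
        d + t + t * B.card + β ≤ ph F (B \ S) d + t * S.card + t * (d + t) + 1) →
      ∃ M : ι → V → V, Good F B z t M ∧ cn M z z + t * B.card + β ≤ t * (d + t) + 1 := by
  classical
  intro n
  induction n with
  | zero => exact fun _ h => absurd h (Nat.not_lt_zero _)
  | succ n ih =>
  intro F hn hd hi
  by_cases hA : ∃ S ⊆ B, Even S.card ∧ (2 ≤ t ∨ S = ∅) ∧ ph F (B \ S) d + t * S.card ≤ d + t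
  · obtain ⟨S0, s1, s2, s3, s4⟩ := hA
    obtain ⟨S, a, b⟩ := exists_min_image
      (univ.filter (fun S : Finset V => S ⊆ B ∧ Even S.card ∧ (2 ≤ t ∨ S = ∅)))
      (fun S => ph F (B \ S) d + t * S.card) ⟨S0, mem_filter.2 ⟨mem_univ _, s1, s2, s3⟩⟩
    obtain ⟨a1, a2, a3⟩ := (mem_filter.1 a).2
    have b' : ∀ S' ⊆ B, Even S'.card → 2 ≤ t ∨ S' = ∅ →
        ph F (B \ S) d + t * S.card ≤ ph F (B \ S') d + t * S'.card := fun S' x y w =>
      b S' (mem_filter.2 ⟨mem_univ _, x, y, w⟩)
    have a4 := (b' S0 s1 s2 s3).trans s4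
    obtain ⟨M, m1, m2⟩ := small_cut (F := F) hm hz a1 a2 ht a3 hd a4
      (fun u hu v hv k => by
        by_cases e : S = ∅
        · subst e
          simp only [sdiff_empty, card_empty, mul_zero, add_zero] at hu hv a4 b' ⊢
          obtain ⟨x, y, w, -, -, p1, p2, p3, p4⟩ := ph_pair hu hv k hd
          by_cases t2 : 2 ≤ t
          · have := b' {u, v} (insert_subset hu (singleton_subset_iff.2 hv))
              (by rw [card_pair k.ne]; exact even_two) (Or.inl t2)
            rw [card_pair k.ne] at this
            omega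
          · by_contra l
            have m : ∀ x ∈ B, dg F x B < d → x = u ∨ x = v := fun x hx r => by
              by_contra q
              have q' : x ∉ ({u, v} : Finset V) := by simpa using q
              have := sum_le_sum_of_subset (f := df F B d)
                (insert_subset hx (insert_subset hu (singleton_subset_iff.2 hv)))
              rw [sum_insert q', sum_pair k.ne] at this
              have : 1 ≤ df F B d x := by unfold df; omega
              unfold ph at a4
              omega
            have := no_def (F := F) (h1.resolve_left t2) fun x hx y hy r s ne => by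
              rcases m x hx r with rfl | rfl <;> rcases m y hy s with rfl | rfl
              · exact absurd rfl ne
              · exact k
              · exact k.symm
              · exact absurd rfl ne
            rw [this u hu, this v hv] at l
            omega
        · have x := sum_le_sum_of_subset (f := df F (B \ S) d)
            (insert_subset hu (singleton_subset_iff.2 hv))
          rw [sum_pair k.ne] at x
          have := Nat.mul_pos ht (card_pos.2 (nonempty_iff_ne_empty.2 e))
          unfold ph at a4
          omega)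
      (fun u hu v hv k => by
        have sub : ({u, v} : Finset V) ⊆ S := insert_subset hu (singleton_subset_iff.2 hv)
        by_cases e : 3 ≤ S.card
        · have x := sum_le_sum_of_subset (f := fun y => dg F y (B \ S)) sub
          rw [sum_pair k.ne] at x
          have := Nat.mul_le_mul_left t e
          rw [ph_split a1 hd] at a4
          omega
        · have e' : ({u, v} : Finset V) = S :=
            eq_of_subset_of_card_le sub (by rw [card_pair k.ne]; omega)
          obtain ⟨x, y, w, p5, p6, p1, p2, p3, p4⟩ := ph_pair (a1 hu) (a1 hv) k hd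
          have := b' ∅ (empty_subset _) (by simp) (Or.inr rfl)
          rw [sdiff_empty, ← e', card_pair k.ne, card_empty] at this
          rw [← e']
          omega)
    have := hi S a1 a2 a3
    exact ⟨M, m1, by omega⟩
  have hB : ∀ S ⊆ B, Even S.card → 2 ≤ t ∨ S = ∅ → d + t < ph F (B \ S) d + t * S.card :=
    fun S a b c => not_le.1 fun k => hA ⟨S, a, b, c, k⟩
  by_cases hq : ∀ u ∈ B, ∀ v ∈ B, dg F u B < d → dg F v B < d → u ≠ v → F.Adj u v
  · by_cases t2 : 2 ≤ t
    · obtain ⟨M, m1, m2⟩ := clique_case (F := F) hm hz t2 hd hq fun S a b => hB S a b (Or.inl t2)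
      exact ⟨M, m1, by omega⟩
    · have a := hB ∅ (empty_subset _) (by simp) (Or.inr rfl)
      rw [sdiff_empty, ph, sum_eq_zero (no_def (h1.resolve_left t2) hq)] at a
      simp at a
  push Not at hq
  obtain ⟨u, hu, v, hv, d1, d2, ne, na⟩ := hq
  have dj : Disjoint F (SimpleGraph.edge u v) := disjoint_iff_adj.2 fun a b x y => by
    rcases (SimpleGraph.edge_adj u v a b |>.1 y).1 with r | r
    · exact na (r.1 ▸ r.2 ▸ x)
    · exact na (r.1 ▸ r.2 ▸ x.symm)
  have e1 : ∀ X : Finset V, ph F X d ≤ ph (F ⊔ SimpleGraph.edge u v) X d + 2 := fun X => by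
    have a : ph F X d ≤ ∑ w ∈ X, (df (F ⊔ SimpleGraph.edge u v) X d w +
        ((if w = u then 1 else 0) + if w = v then 1 else 0)) := sum_le_sum fun w _ => by
      have := dg_edge u v w X
      unfold df
      rw [dg_sup dj]
      omega
    simp only [sum_add_distrib, sum_ite_eq'] at a
    unfold ph at a ⊢
    split_ifs at a <;> omega
  have e2 : ph (F ⊔ SimpleGraph.edge u v) B d < ph F B d := by
    refine sum_lt_sum (fun w _ => ?_) ⟨u, hu, ?_⟩
    · unfold df; rw [dg_sup dj]; omega
    · have : 0 < dg (SimpleGraph.edge u v) u B := card_pos.2 ⟨v, mem_nb.2 ⟨hv,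
        (SimpleGraph.edge_adj u v u v).2 ⟨Or.inl ⟨rfl, rfl⟩, ne⟩⟩⟩
      unfold df; rw [dg_sup dj]; omega
  obtain ⟨M, m1, m2⟩ := ih (F ⊔ SimpleGraph.edge u v) (by omega)
    (fun w hw => by
      have a := dg_edge u v w B
      have b := hd w hw
      rw [dg_sup dj]
      split_ifs at a with x y y
      · exact absurd (x.symm.trans y) ne
      · subst x; omega
      · subst y; omega
      · omega)
    (fun S a b c => by
      have := hB S a b c
      have := e1 (B \ S)
      omega)
  exact ⟨M, ⟨m1.iv, m1.out, fun a x b y k => m1.cov a x b y (Or.inl k), m1.load⟩, m2⟩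

end Pool.Agent.MP_5c8b6d_co.JE
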