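import Pool.Agent.MP_5c8b6d_co.je.G
import Pool.Agent.MP_5c8b6d_co.ML

/-! The detachment of the second factor of the join. -/

namespace Pool.Agent.MP_5c8b6d_co.JE

open Finset

set_option linter.unusedSectionVars false

variable {V ι : Type} [Fintype V] [DecidableEq V] [Fintype ι] [DecidableEq ι]

/-- bipartite multigraphs -/
theorem konm (σ : V → Bool) : ∀ (n : ℕ) (μ : V → V → ℕ), ∑ u, dm μ u < n →
    (∀ u v, μ u v = μ v u) → (∀ u v, μ u v ≠ 0 → σ u ≠ σ v) →
    (∀ u, dm μ u ≤ Fintype.card ι) → ∃ M : ι → V → V, Re M μ := by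
  intro n
  induction n with
  | zero => exact fun _ h => absurd h (Nat.not_lt_zero _)
  | succ n ih =>
  intro μ hn hs hσ hd
  by_cases h0 : ∀ u v, u ≠ v → μ u v = 0
  · exact ⟨fun _ => id, fun _ _ => rfl, fun u v k => by rw [h0 u v k]; simp [cn, k]⟩
  push Not at h0
  obtain ⟨u, v, ne, h0⟩ := h0
  let ν : V → V → ℕ := fun a b => μ a b - if (a = u ∧ b = v) ∨ (b = u ∧ a = v) then 1 else 0
  have le : ∀ a, dm ν a ≤ dm μ a := fun a => sum_le_sum fun b _ => Nat.sub_le _ _
  have lu : dm ν u < dm μ u := sum_lt_sum (fun b _ => Nat.sub_le _ _)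
    ⟨v, mem_erase.2 ⟨ne.symm, mem_univ _⟩, by simp only [ν, and_self, true_or, if_true]; omega⟩
  have lv : dm ν v < dm μ v := sum_lt_sum (fun b _ => Nat.sub_le _ _)
    ⟨u, mem_erase.2 ⟨ne, mem_univ _⟩, by
      have := hs u v
      simp only [ν, and_self, or_true, if_true]; omega⟩
  have lt : ∑ a, dm ν a < ∑ a, dm μ a := sum_lt_sum (fun a _ => le a) ⟨u, mem_univ _, lu⟩
  obtain ⟨M, h⟩ := ih ν (by omega) (fun a b => by simp only [ν, hs a b, or_comm])
    (fun a b k => hσ a b fun x => k (by simp only [ν, x, Nat.zero_sub])) fun a => (le a).trans (hd a)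
  have hb : ∀ c w, M c w ≠ w → σ w ≠ σ (M c w) := fun c w k => hσ _ _ fun x => by
    have a := h.2 w (M c w) k.symm
    simp only [ν, x, Nat.zero_sub, cn, card_eq_zero, filter_eq_empty_iff] at a
    exact a (mem_univ c) rfl
  have fin : ∀ N : ι → V → V, Re N ν → ∀ c, N c u = u → N c v = v → ∃ M : ι → V → V, Re M μ :=
    fun N k c x y => by
      obtain ⟨N', a, b⟩ := ext_aux u 1 {c} {v} N v rfl k.1 (by simpa using x) (by simpa using ne)
        (by simp) (by simp [filter_singleton, y]) (by simp)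
      refine ⟨N', a, fun p q r => ?_⟩
      rw [b p q r, k.2 p q r]
      simp only [ν, mem_singleton]
      split_ifs with l
      · have := hs u v
        rcases l with ⟨rfl, rfl⟩ | ⟨rfl, rfl⟩ <;> omega
      · rfl
  obtain ⟨a, ha⟩ := exists_of_cn (M := M) (u := u) (v := u)
    (by have := h.load u; have := hd u; omega)
  obtain ⟨b, hb'⟩ := exists_of_cn (M := M) (u := v) (v := v)
    (by have := h.load v; have := hd v; omega)
  by_cases h1 : M b u = u
  · exact fin M h b h1 hb'
  by_cases h2 : M a v = v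
  · exact fin M h a ha h2
  obtain ⟨τ, hτ⟩ := kempe V (M a) (M b) (h.1 a) (h.1 b)
  obtain ⟨-, -, -, K, k1, k2, k3, k4⟩ := hτ u ⟨fun _ => h1, fun _ => ha⟩
  have hv : v ∉ K := by
    intro hv
    have e : v = τ u := (k4 v hv (Or.inr hb')).resolve_left ne.symm
    have s1 := Kempe.sign_sum (h.1 a) σ K (fun w hw => (k3 w hw).1) (hb a) k1
      (fun w hw => ⟨fun k => by
        rcases k4 w hw (Or.inl k) with r | r
        · exact r
        · rw [r, ← e] at k; exact absurd k h2, fun k => k ▸ ha⟩)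
    have s2 := Kempe.sign_sum (h.1 b) σ K (fun w hw => (k3 w hw).2) (hb b) hv
      (fun w hw => ⟨fun k => by
        rcases k4 w hw (Or.inr k) with r | r
        · rw [r] at k; exact absurd k h1
        · rw [r, e], fun k => k ▸ hb'⟩)
    rw [s1] at s2
    have := hσ u v h0
    cases h3 : σ u <;> cases h4 : σ v <;> simp_all
  have r : Rl univ M (fun _ => ∅) _ _ := rl_swap (mem_univ a) (mem_univ b) K
  refine fin (swapK M a b K) ⟨h.1.swap k3, fun p q x => (r.cn_eq p q).trans (h.2 p q x)⟩ b ?_ ?_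
  · rw [swapK_mem k1, Equiv.swap_apply_right, ha]
  · rw [swapK_not hv, hb']

/-- labels with bounded numbers -/
theorem lab_le (c0 : ι) (p : ι → ℕ) (T : Finset V) (h : T.card ≤ ∑ c, p c) :
    ∃ ψ : V → ι, ∀ c, (T.filter (fun x => ψ x = c)).card ≤ p c := by
  induction T using Finset.induction_on with
  | empty => exact ⟨fun _ => c0, by simp⟩
  | insert x T hx ih =>
    rw [card_insert_of_notMem hx] at h
    obtain ⟨ψ, a⟩ := ih (by omega)
    obtain ⟨c, -, b⟩ := exists_lt_of_sum_lt (s := univ)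
      (f := fun c => (T.filter (fun x => ψ x = c)).card) (g := p) (by
        rw [← card_eq_sum_card_fiberwise (f := ψ) fun _ _ => mem_univ _]; omega)
    refine ⟨Function.update ψ x c, fun j => ?_⟩
    have e : T.filter (fun y => Function.update ψ x c y = j) = T.filter (fun y => ψ y = j) :=
      filter_congr fun y hy => by rw [Function.update_of_ne fun k : y = x => hx (k ▸ hy)]
    rw [filter_insert, e, Function.update_self]
    split_ifs with k
    · subst k
      exact (card_insert_le _ _).trans b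
    · exact a j

/-- a labelling of the pairs of an involution with bounded numbers -/
theorem lab_pairs (c0 : ι) (p : ι → ℕ) {ν : V → V} (hν : ∀ v, ν (ν v) = v)
    (h : (mv ν).card ≤ 2 * ∑ c, p c + 1) : ∃ ψ : V → ι, (∀ x, ψ (ν x) = ψ x) ∧
      ∀ c, ((mv ν).filter (fun x => ψ x = c)).card ≤ 2 * p c := by
  let T := univ.filter (fun x => Fintype.equivFin V x < Fintype.equivFin V (ν x))
  have mT : ∀ x, x ∈ T ↔ Fintype.equivFin V x < Fintype.equivFin V (ν x) := fun x => by simp [T]
  have t1 : ∀ x ∈ T, ν x ∉ T := fun x a b => by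
    rw [mT] at a b
    rw [hν] at b
    exact lt_asymm a b
  have t2 : ∀ x, x ∉ T → ν x ∉ T → ν x = x := fun x a b => by
    rw [mT, not_lt] at a b
    rw [hν] at b
    exact (Fintype.equivFin V).injective (le_antisymm a b)
  have t3 : T ∪ T.image ν ⊆ mv ν := fun x hx => mem_mv.2 fun k => by
    have : x ∈ T := (mem_union.1 hx).elim id fun y => k ▸ (mem_image_inv hν).1 y
    exact t1 x this (k.symm ▸ this)
  have t4 := card_le_card t3
  rw [card_union_of_disjoint (disjoint_left.2 fun x a b => t1 x a ((mem_image_inv hν).1 b)),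
    card_image_inv hν] at t4
  obtain ⟨ψ, a⟩ := lab_le c0 p T (by omega)
  refine ⟨fun x => if x ∈ T then ψ x else ψ (ν x), fun x => ?_, fun c => ?_⟩
  · by_cases k : x ∈ T
    · simp only [if_pos k, if_neg (t1 x k), hν]
    · by_cases l : ν x ∈ T
      · simp only [if_pos l, if_neg k]
      · rw [t2 x k l]
  · have : (mv ν).filter (fun x => (if x ∈ T then ψ x else ψ (ν x)) = c) ⊆
        T.filter (fun x => ψ x = c) ∪ (T.filter (fun x => ψ x = c)).image ν := fun x hx => by
      obtain ⟨x1, x2⟩ := mem_filter.1 hx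
      by_cases k : x ∈ T
      · exact mem_union_left _ (mem_filter.2 ⟨k, by rwa [if_pos k] at x2⟩)
      · refine mem_union_right _ ((mem_image_inv hν).2 (mem_filter.2 ⟨?_, by rwa [if_neg k] at x2⟩))
        by_contra l
        exact mem_mv.1 x1 (t2 x k l)
    have b := (card_le_card this).trans (card_union_le _ _)
    rw [card_image_inv hν] at b
    exact b.trans (by have := a c; omega)

/-- the bipartite multigraph of a table -/
def tab (r : V → ι → ℕ) : V ⊕ ι → V ⊕ ι → ℕ
  | Sum.inl w, Sum.inr c => r w c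
  | Sum.inr c, Sum.inl w => r w c
  | Sum.inl _, Sum.inl _ => 0
  | Sum.inr _, Sum.inr _ => 0

theorem dm_tab_inl (r : V → ι → ℕ) (w : V) : dm (tab r) (Sum.inl w) = ∑ c, r w c := by
  rw [dm, sum_erase (f := tab r (Sum.inl w)) _ rfl, Fintype.sum_sum_type]; simp [tab]

theorem dm_tab_inr (r : V → ι → ℕ) (c : ι) : dm (tab r) (Sum.inr c) = ∑ w, r w c := by
  rw [dm, sum_erase (f := tab r (Sum.inr c)) _ rfl, Fintype.sum_sum_type]; simp [tab]

/-- the columns of the array: the vertices of `I` get the missing colours of the others -/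
theorem columns {I : Finset V} {z : V} (hz : z ∈ I) (c0 : ι) {N : ι → V → V}
    (hl : ∀ w, w ∉ I → cn N w w = I.card) {X : Finset V} (hX : X ⊆ I) (ψ : V → ι)
    (hc : ∀ c, (univ.filter (fun w => w ∉ I ∧ N c w = w)).card +
      (X.filter (fun x => ψ x = c)).card ≤ I.card) :
    ∃ g : V → V → ι, (∀ w, w ∉ I → ∀ x ∈ I, N (g w x) w = w) ∧
      (∀ w, w ∉ I → ∀ x ∈ I, ∀ y ∈ I, g w x = g w y → x = y) ∧
      (∀ v w, v ∉ I → w ∉ I → ∀ x ∈ I, g v x = g w x → v = w) ∧
      ∀ w, w ∉ I → ∀ x ∈ X, g w x ≠ ψ x := by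
  let r : V → ι → ℕ := fun w c => (if w ∉ I ∧ N c w = w then 1 else 0) +
    if w = z then (X.filter (fun x => ψ x = c)).card else 0
  have r1 : ∀ w, w ∉ I → ∀ c, r w c = if N c w = w then 1 else 0 := fun w hw c => by
    have : w ≠ z := fun k => hw (k ▸ hz)
    simp [r, hw, this]
  have r2 : ∀ w, w ∉ I → ∑ c, r w c = I.card := fun w hw => by
    simp only [r1 w hw]; rw [← card_filter]; exact hl w hw
  have r3 : ∀ c, r z c = (X.filter (fun x => ψ x = c)).card := fun c => by simp [r, hz]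
  obtain ⟨K, k⟩ := konm (ι := I) Sum.isLeft _ (tab r) (Nat.lt_succ_self _)
    (fun a b => by cases a <;> cases b <;> rfl)
    (fun a b => by cases a <;> cases b <;> simp [tab])
    (fun a => by
      rw [Fintype.card_coe]
      cases a with
      | inl w =>
        rw [dm_tab_inl]
        by_cases a : w ∈ I
        · by_cases b : w = z
          · subst b
            simp only [r3]
            rw [← card_eq_sum_card_fiberwise (f := ψ) fun _ _ => mem_univ _]
            exact card_le_card hX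
          · simp [r, a, b]
        · exact (r2 w a).le
      | inr c =>
        rw [dm_tab_inr]
        simp only [r, sum_add_distrib, sum_ite_eq', mem_univ, if_true]
        rw [← card_filter]
        exact hc c)
  let f : I → V ⊕ ι := fun x => if x.1 ∈ X then Sum.inr (ψ x) else Sum.inl z
  have f1 : ∀ y, y ≠ Sum.inl z → cn (fun x _ => f x) (Sum.inl z) y = cn K (Sum.inl z) y :=
    fun y hy => by
      rw [k.2 _ y hy.symm]
      cases y with
      | inl w =>
        change _ = 0
        rw [cn, card_eq_zero, filter_eq_empty_iff]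
        intro x _ l
        simp only [f] at l
        split_ifs at l
        exact hy l.symm
      | inr c =>
        change _ = r z c
        rw [r3]
        refine card_bij (fun x _ => x.1) (fun x hx => ?_) (fun _ _ _ _ l => Subtype.ext l)
          (fun x hx => ⟨⟨x, hX (mem_filter.1 hx).1⟩, ?_, rfl⟩)
        · have l := (mem_filter.1 hx).2
          simp only [f] at l
          split_ifs at l with q
          exact mem_filter.2 ⟨q, Sum.inr_injective l⟩
        · simp [f, (mem_filter.1 hx).1, (mem_filter.1 hx).2]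
  have f2 : ∀ y, cn (fun x _ => f x) (Sum.inl z) y = cn K (Sum.inl z) y := fun y => by
    by_cases hy : y = Sum.inl z
    · have a := sum_cn (fun (x : I) (_ : V ⊕ ι) => f x) (Sum.inl z)
      have b := sum_cn K (Sum.inl z)
      rw [← add_sum_erase _ _ (mem_univ (Sum.inl z))] at a b
      have e : ∑ y ∈ univ.erase (Sum.inl z), cn (fun (x : I) (_ : V ⊕ ι) => f x) (Sum.inl z) y =
          ∑ y ∈ univ.erase (Sum.inl z), cn K (Sum.inl z) y :=
        sum_congr rfl fun y hy => f1 y (mem_erase.1 hy).1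
      rw [hy]; omega
    · exact f1 y hy
  obtain ⟨θ, hθ⟩ : ∃ θ : I ≃ I, ∀ x, K (θ x) (Sum.inl z) = f x :=
    ⟨Equiv.ofFiberEquiv (f := f) (g := fun x => K x (Sum.inl z)) fun y =>
      Fintype.equivOfCardEq (by rw [Fintype.card_subtype, Fintype.card_subtype]; exact f2 y),
      fun x => Equiv.ofFiberEquiv_map (g := fun x => K x (Sum.inl z)) _ x⟩
  have g0 : ∀ w x, ∃ c, w ∉ I → ∀ hx : x ∈ I,
      K (θ ⟨x, hx⟩) (Sum.inl w) = Sum.inr c ∧ N c w = w := fun w x => by
    by_cases a : w ∉ I ∧ x ∈ I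
    · have b := k.load (Sum.inl w)
      rw [dm_tab_inl, r2 w a.1, Fintype.card_coe, Nat.add_eq_right, cn, card_eq_zero,
        filter_eq_empty_iff] at b
      have b1 := b (mem_univ (θ ⟨x, a.2⟩))
      have b2 := k.2 _ _ (Ne.symm b1)
      have b3 : 0 < cn K (Sum.inl w) (K (θ ⟨x, a.2⟩) (Sum.inl w)) :=
        card_pos.2 ⟨_, mem_filter.2 ⟨mem_univ _, rfl⟩⟩
      rw [b2] at b3
      rcases e : K (θ ⟨x, a.2⟩) (Sum.inl w) with u | c
      · rw [e] at b3; exact absurd b3 (lt_irrefl 0)
      · rw [e] at b3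
        refine ⟨c, fun _ _ => ⟨e, ?_⟩⟩
        by_contra l
        have b4 : 0 < r w c := b3
        rw [r1 w a.1, if_neg l] at b4
        exact lt_irrefl 0 b4
    · exact ⟨c0, fun r s => absurd ⟨r, s⟩ a⟩
  choose g g1 using g0
  refine ⟨g, fun w a x b => (g1 w x a b).2, fun w a x b y c q => ?_, fun v w a b x c q => ?_,
    fun w a x b q => ?_⟩
  · have e := k.2 (Sum.inl w) (Sum.inr (g w x)) (by simp)
    have e1 : cn K (Sum.inl w) (Sum.inr (g w x)) ≤ 1 := by
      rw [e]
      change r w _ ≤ 1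
      rw [r1 w a]; split_ifs <;> omega
    have := card_le_one.1 e1 _ (mem_filter.2 ⟨mem_univ _, (g1 w x a b).1⟩) _
      (mem_filter.2 ⟨mem_univ _, q ▸ (g1 w y a c).1⟩)
    exact congrArg Subtype.val (θ.injective this)
  · have e := (g1 v x a c).1
    rw [q, ← (g1 w x b c).1] at e
    exact Sum.inl_injective (inv_inj (k.1 _) e)
  · have e := (g1 w x a (hX b)).1
    have e1 := hθ ⟨x, hX b⟩
    simp only [f, if_pos b] at e1
    rw [q, ← e1] at e
    exact a (Sum.inl_injective (inv_inj (k.1 _) e) ▸ hz)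

/-- the detachment: from a good colouring to an edge colouring of the join -/
theorem detach {G : SimpleGraph V} {I : Finset V} (hJ : ∀ x ∈ I, dg G x I ≤ 1) {z : V}
    (hz : z ∈ I) (ho : Odd (Fintype.card V)) {M : ι → V → V} (h : Good G Iᶜ z I.card M)
    (h0 : 0 < Fintype.card ι)
    (hc : cn M z z + I.card * Iᶜ.card + ∑ x ∈ I, dg G x I ≤ I.card * Fintype.card ι + 1) :
    ∃ R : ι → V → V, PC G R ∧ Full G R := by
  classical
  have zB : z ∉ Iᶜ := fun k => mem_compl.1 k hz
  obtain ⟨N, Y, n1, n2, n3⟩ := eqs (Y := fun c => fx (M c) (insert z Iᶜ)) univ h.iv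
    fun c v hv => (mem_fx.1 hv).2
  have c1 := n2.cn_eq
  have l1 := n2.ld_eq
  obtain ⟨π, -, p⟩ := n2
  have y1 : ∀ c, Y c = fx (N c) (insert z Iᶜ) := fun c => by
    ext v; rw [(p c v).2, mem_fx, mem_fx, (p c v).1]
  have y2 : ∀ c, (Y c).card % 2 = I.card % 2 := fun c => by
    have a := card_fx_add (N c) (insert z Iᶜ)
    have b : mv (N c) ⊆ insert z Iᶜ := fun v hv => by
      by_contra k
      rw [mem_insert, not_or] at k
      exact mem_mv.1 hv ((p c v).1.trans (h.out _ v k.2 k.1))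
    rw [inter_eq_left.2 b, card_insert_of_notMem zB, ← y1] at a
    have := Nat.even_iff.1 (even_card_mv (n1 c))
    have := card_add_card_compl I
    have := Nat.odd_iff.1 ho
    omega
  have y3 : ∑ c, (Y c).card = cn M z z + I.card * Iᶜ.card := by
    have e : ∀ v, ld Y v = if v ∈ insert z Iᶜ then cn M v v else 0 := fun v => by
      rw [l1]
      unfold ld cn
      split_ifs with k
      · simp only [mem_fx, k, true_and]
      · simp only [mem_fx, k, false_and, filter_false, card_empty]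
    rw [sum_card_ld]
    simp only [e]
    rw [← sum_filter, filter_mem_eq_inter, univ_inter, sum_insert zB, sum_congr rfl h.load,
      sum_const, smul_eq_mul, mul_comm]
  have y4 : ∀ c, (Y c).card ≤ I.card := fun c => by
    by_contra k
    have a : ∀ j ∈ univ.erase c, I.card ≤ (Y j).card := fun j _ => by
      have := n3 c (mem_univ _) j (mem_univ _)
      have := y2 c
      have := y2 j
      omega
    have b : (univ.erase c).card • I.card ≤ ∑ j ∈ univ.erase c, (Y j).card :=
      card_nsmul_le_sum _ _ _ a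
    have e := add_sum_erase univ (fun j => (Y j).card) (mem_univ c)
    obtain ⟨m, hm⟩ : ∃ m, Fintype.card ι = m + 1 := ⟨Fintype.card ι - 1, by omega⟩
    rw [card_erase_of_mem (mem_univ c), card_univ, hm, smul_eq_mul, Nat.add_sub_cancel,
      mul_comm] at b
    rw [hm, mul_add] at hc
    have := y2 c
    omega
  have y5 : ∀ c, (Y c).card + 2 * ((I.card - (Y c).card) / 2) = I.card := fun c => by
    have := y2 c
    have := y4 c
    omega
  have u1 : ∀ u ∈ I, ∀ v ∈ I, ∀ w ∈ I, G.Adj u v → G.Adj u w → v = w := fun u a v b w c k l =>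
    card_le_one.1 (hJ u a) v (mem_nb.2 ⟨b, k⟩) w (mem_nb.2 ⟨c, l⟩)
  obtain ⟨ν, ν1, ν2⟩ := of_fun (F := G) I (fun _ _ => ()) (fun _ _ _ _ _ => rfl)
    fun u a v b w c k l _ => u1 u a v b w c k l
  have ν3 : ∀ u ∈ I, ∀ v ∈ I, G.Adj u v → ν () u = v := fun u a v b k => by
    obtain ⟨c, hc⟩ := exists_of_cn (M := ν) (u := u) (v := v)
      (by rw [ν1.2 u v k.ne, eg_pos a b k]; exact one_pos)
    exact hc
  have ν4 : mv (ν ()) ⊆ I := fun x hx => (ν2 () x (mem_mv.1 hx)).1
  have ν5 : (mv (ν ())).card ≤ ∑ x ∈ I, dg G x I := by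
    refine le_trans ?_ (sum_le_sum_of_subset (f := fun x => dg G x I) ν4)
    rw [card_eq_sum_ones]
    refine sum_le_sum fun x hx => card_pos.2 ⟨ν () x, mem_nb.2 ?_⟩
    exact ⟨(ν2 () x (mem_mv.1 hx)).2.1, (ν2 () x (mem_mv.1 hx)).2.2.1⟩
  obtain ⟨c0⟩ : Nonempty ι := Fintype.card_pos_iff.1 h0
  obtain ⟨ψ, ψ1, ψ2⟩ := lab_pairs c0 (fun c => (I.card - (Y c).card) / 2) (ν1.1 ()) (by
    have a := sum_congr (rfl : (univ : Finset ι) = univ) fun c _ => y5 c
    rw [sum_add_distrib, ← mul_sum, sum_const, card_univ, smul_eq_mul,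
      mul_comm (Fintype.card ι)] at a
    omega)
  obtain ⟨g, g1, g2, g3, g4⟩ := columns hz c0 (N := N)
    (fun w hw => (c1 w w).trans (h.load w (mem_compl.2 hw))) ν4 ψ fun c => by
      have a : (univ.filter (fun w => w ∉ I ∧ N c w = w)).card ≤ (Y c).card :=
        card_le_card fun w hw => by
          obtain ⟨a, b⟩ := (mem_filter.1 hw).2
          rw [y1]
          exact mem_fx.2 ⟨mem_insert_of_mem (mem_compl.2 a), b⟩
      have := ψ2 c
      have := y5 c
      omega
  have e0 : ∀ u v, u ∉ I → v ∉ I → G.Adj u v → ∃ c, N c u = v ∧ N c v = u := fun u v a b k => by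
    obtain ⟨c, hc⟩ := h.cov u (mem_compl.2 a) v (mem_compl.2 b) k
    obtain ⟨c', hc'⟩ := exists_of_cn (M := N) (u := u) (v := v)
      (c1 u v ▸ card_pos.2 ⟨c, mem_filter.2 ⟨mem_univ _, hc⟩⟩)
    exact ⟨c', hc', by rw [← hc', n1]⟩
  have : Nonempty ι := ⟨c0⟩
  let e : V → V → ι := fun u v => Classical.epsilon fun c => N c u = v ∧ N c v = u
  have e1 : ∀ u v, e u v = e v u := fun u v => by simp only [e, and_comm]
  have e2 : ∀ u v, u ∉ I → v ∉ I → G.Adj u v → N (e u v) u = v := fun u v a b k =>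
    (Classical.epsilon_spec (e0 u v a b k)).1
  have m1 : ∀ u ∈ I, ∀ v ∈ I, G.Adj u v → u ∈ mv (ν ()) := fun u a v b k =>
    mem_mv.2 (ν3 u a v b k ▸ k.ne.symm)
  obtain ⟨R, r1, r2⟩ := of_fun (F := G) univ
    (fun u v => if u ∈ I then (if v ∈ I then ψ u else g v u) else if v ∈ I then g u v else e u v)
    (fun u _ v _ k => by
      by_cases a : u ∈ I <;> by_cases b : v ∈ I <;> simp only [a, b, if_true, if_false, e1 u v]
      rw [← ν3 u a v b k, ψ1])
    (fun u _ v _ w _ k l q => by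
      by_cases a : u ∈ I
      · simp only [if_pos a] at q
        split_ifs at q with b c c
        · exact u1 u a v b w c k l
        · exact absurd q.symm (g4 w c u (m1 u a v b k))
        · exact absurd q (g4 v b u (m1 u a w c l))
        · exact g3 v w b c u a q
      · simp only [if_neg a] at q
        split_ifs at q with b c c
        · exact g2 u a v b w c q
        · have x := g1 u a v b
          rw [q, e2 u w a c l] at x
          exact absurd x l.ne.symm
        · have x := g1 u a w c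
          rw [← q, e2 u v a b k] at x
          exact absurd x k.ne.symm
        · rw [← e2 u v a b k, q, e2 u w a c l])
  refine ⟨R, ⟨r1.1, fun c v k => (r2 c v k).2.2.1, fun i j v k l => ?_⟩, fun u v k => ?_⟩
  · have x := (r2 i v k).2.2.2
    have y := (r2 j v (l ▸ k)).2.2.2
    rw [← l] at y
    exact x.symm.trans y
  · exact exists_of_cn (by rw [r1.2 u v k.ne, eg_pos (mem_univ _) (mem_univ _) k]; exact one_pos)

/-- a join with a graph of maximum degree at most one and no overfull set is colourable -/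
theorem col_join {G : SimpleGraph V} {I : Finset V} (hI : ∀ x ∈ I, ∀ v, v ∉ I → G.Adj x v)
    (hJ : ∀ x ∈ I, dg G x I ≤ 1) (hne : I.Nonempty) (ho : Odd (Fintype.card V)) {m : ℕ}
    (hd : ∀ v, dg G v univ ≤ m) (h1 : m < Fintype.card V) (h2 : 0 < m) (hn : NoOv G univ m) :
    Col G m := by
  obtain ⟨z, hz⟩ := hne
  have t1 : 1 ≤ I.card := card_pos.2 ⟨z, hz⟩
  have cc := card_add_card_compl I
  have dI : ∀ x ∈ I, ∀ X : Finset V, Disjoint X I → dg G x X = X.card := fun x hx X k => by
    unfold dg; congr 1; ext v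
    simp only [mem_nb, and_iff_left_iff_imp]
    exact fun hv => hI x hx v (disjoint_left.1 k hv)
  have dB : ∀ w, w ∉ I → dg G w I = I.card := fun w hw => by
    unfold dg; congr 1; ext v
    simp only [mem_nb, and_iff_left_iff_imp]
    exact fun hv => (hI v hv w hw).symm
  have hk : ∀ x ∈ I, Iᶜ.card + dg G x I ≤ m := fun x hx => by
    have := hd x
    have := dg_add_compl (G := G) x I
    have := dI x hx Iᶜ disjoint_compl_left
    omega
  have hB : ∀ w ∈ Iᶜ, dg G w Iᶜ + I.card ≤ m := fun w hw => by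
    have := dg_add_compl (G := G) w I
    have := dB w (mem_compl.1 hw)
    have := hd w
    omega
  by_cases hb : Iᶜ = ∅
  · have a : ∀ x, x ∈ I := fun x => by
      by_contra l
      exact notMem_empty x (hb ▸ mem_compl.2 l)
    obtain ⟨R, r1, r2⟩ := of_fun (F := G) univ (fun _ _ => (⟨0, h2⟩ : Fin m))
      (fun _ _ _ _ _ => rfl) fun u _ v _ w _ k l _ =>
        card_le_one.1 (hJ u (a u)) v (mem_nb.2 ⟨a v, k⟩) w (mem_nb.2 ⟨a w, l⟩)
    refine ⟨R, ⟨r1.1, fun c v k => (r2 c v k).2.2.1, fun i j v k l => ?_⟩, fun u v k => ?_⟩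
    · exact (r2 i v k).2.2.2.symm.trans (r2 j v (l ▸ k)).2.2.2
    · exact exists_of_cn (by rw [r1.2 u v k.ne, eg_pos (mem_univ _) (mem_univ _) k]; exact one_pos)
  obtain ⟨w0, hw0⟩ := nonempty_iff_ne_empty.2 hb
  obtain ⟨d, rfl⟩ : ∃ d, m = d + I.card := ⟨m - I.card, by have := hB w0 hw0; omega⟩
  have hs : I.card * Iᶜ.card + ∑ x ∈ I, dg G x I ≤ I.card * (d + I.card) := by
    have := sum_le_sum hk
    rwa [sum_add_distrib, sum_const, sum_const, smul_eq_mul, smul_eq_mul] at this
  obtain ⟨M, m1, m2⟩ := core (ι := Fin (d + I.card)) (B := Iᶜ) (z := z) (Fintype.card_fin _)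
    (fun k => mem_compl.1 k hz) t1 hs (by have := hk z hz; omega) _ G (Nat.lt_succ_self _)
    (fun w hw => by have := hB w hw; omega)
    (fun S hS he _ => by
      have dj : Disjoint (Iᶜ \ S) I := disjoint_left.2 fun v a b => mem_compl.1 (mem_sdiff.1 a).1 b
      have c1 := card_sdiff_add_card_eq_card hS
      have c2 := card_union_of_disjoint dj
      have a := hn (Iᶜ \ S ∪ I) (subset_univ _) (by
        rw [Nat.odd_iff] at ho ⊢
        rw [Nat.even_iff] at he
        omega)
      have e1 : ∑ v ∈ Iᶜ \ S, dg G v (Iᶜ \ S ∪ I) = ∑ v ∈ Iᶜ \ S, (dg G v (Iᶜ \ S) + I.card) :=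
        sum_congr rfl fun v hv => by rw [dg_union v dj, dB v (mem_compl.1 (mem_sdiff.1 hv).1)]
      have e2 : ∑ v ∈ I, dg G v (Iᶜ \ S ∪ I) = ∑ v ∈ I, ((Iᶜ \ S).card + dg G v I) :=
        sum_congr rfl fun v hv => by rw [dg_union v dj, dI v hv _ dj]
      have e3 : ph G (Iᶜ \ S) d + ∑ v ∈ Iᶜ \ S, dg G v (Iᶜ \ S) = ∑ _v ∈ Iᶜ \ S, d := by
        rw [ph, ← sum_add_distrib]
        refine sum_congr rfl fun v hv => ?_
        have := hB v (mem_sdiff.1 hv).1
        have := dg_mono_set (G := G) v (sdiff_subset (s := Iᶜ) (t := S))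
        unfold df; omega
      rw [sum_union dj, e1, e2, sum_add_distrib, sum_add_distrib, c2] at a
      simp only [sum_const, smul_eq_mul] at a e3
      rw [← c1]
      nlinarith)
  obtain ⟨R, r1, r2⟩ := detach hJ hz ho m1 (by rw [Fintype.card_fin]; omega)
    (by rw [Fintype.card_fin]; exact m2)
  exact ⟨R, r1, r2⟩

theorem main (n r : ℕ) (h1 : 1 ≤ r) (hr : r ≤ n) (G : SimpleGraph (Fin (2 * n + 1)))
    [DecidableRel G.Adj] (hΔ : G.maxDegree = 2 * n + 1 - r)
    (hJ : ∃ I : Finset (Fin (2 * n + 1)), I.Nonempty ∧ (∀ x ∈ I, ∀ v, v ∉ I → G.Adj x v) ∧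
      ∀ x ∈ I, ∀ u ∈ I, ∀ v ∈ I, G.Adj x u → G.Adj x v → u = v) :
    G.lineGraph.chromaticNumber = ((G.maxDegree + 1 : ℕ) : ℕ∞) ↔
      ∃ s : ℕ, 2 * s + 1 ≤ r ∧
        ∃ S : Finset (Fin (2 * n + 1)), S.card = 2 * s ∧
          ((({e ∈ G.edgeSet | ∀ v ∈ S, v ∉ e}).ncard : ℤ) >
            (((2 * n + 1 - 2 * s).choose 2 : ℕ) : ℤ) - ((r : ℤ) - 2 * s) * ((n : ℤ) - s)) := by
  obtain ⟨I, a, b, c⟩ := hJ
  rw [class_two_iff (viz_of (val_of kempe)), ← noOv_iff n r hr, hΔ]
  refine not_congr ⟨noOv_of_col, fun k => col_join b (fun x hx => card_le_one.2 fun u hu v hv =>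
    c x hx u (mem_nb.1 hu).1 v (mem_nb.1 hv).1 (mem_nb.1 hu).2 (mem_nb.1 hv).2) a (by simp)
    (fun v => ?_) (by simp; omega) (by omega) k⟩
  rw [dg_eq_degree, ← hΔ]; exact G.degree_le_maxDegree v

end Pool.Agent.MP_5c8b6d_co.JE
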